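import Pool.Agent.T3H29.SS.Stm

/-! # Counting with a choice of index -/

set_option autoImplicit false

namespace Pool.Agent.T3H29.SS

open Finset

lemma cnt_fin (θ c : ℝ) (F : ℝ → ℝ) (hθ : 0 < θ) (hF : HasCompactSupport F) :
    (Function.support fun n : ℤ => F (n * θ + c)).Finite := by
  obtain ⟨R, hR⟩ := hF.isBounded.subset_closedBall 0
  have h1 : (Function.support fun n : ℤ => F (n * θ + c)) ⊆
      Set.Icc ⌊(-R - c) / θ⌋ ⌈(R - c) / θ⌉ := by
    intro n hn
    have h2 : (n * θ + c : ℝ) ∈ Metric.closedBall (0 : ℝ) R :=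
      hR (subset_tsupport F hn)
    rw [mem_closedBall_zero_iff, Real.norm_eq_abs, abs_le] at h2
    constructor
    · have h3 : (-R - c) / θ ≤ n := by
        rw [div_le_iff₀ hθ]
        linarith [h2.1]
      exact_mod_cast (Int.floor_le _).trans h3
    · have h3 : (n : ℝ) ≤ (R - c) / θ := by
        rw [le_div_iff₀ hθ]
        linarith [h2.2]
      exact_mod_cast h3.trans (Int.le_ceil _)
  exact (Set.finite_Icc _ _).subset h1

theorem t_CNT : S_CNT := by
  intro θ c u m F N M hθ hF h0 hm
  have hsum : ∀ j : ℕ, Summable fun n : ℤ => F (n * θ + c + u j) := by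
    intro j
    have h1 := cnt_fin θ (c + u j) F hθ hF
    have h2 : (fun n : ℤ => F (n * θ + c + u j)) = fun n : ℤ => F (n * θ + (c + u j)) := by
      funext n
      rw [add_assoc]
    rw [h2]
    exact summable_of_finite_support h1
  have h1 : ∑ n ∈ range N, F (n * θ + c + u (m n)) =
      ∑ j ∈ range M, ∑ n ∈ (range N).filter (fun n => m n = j), F (n * θ + c + u (m n)) := by
    rw [Finset.sum_fiberwise_of_maps_to]
    intro n hn
    exact mem_range.2 (hm n (mem_range.1 hn))
  rw [h1]
  refine Finset.sum_le_sum fun j _ => ?_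
  have h2 : ∑ n ∈ (range N).filter (fun n => m n = j), F (n * θ + c + u (m n)) =
      ∑ n ∈ ((range N).filter (fun n => m n = j)).map Nat.castEmbedding,
        F (((n : ℤ) : ℝ) * θ + c + u j) := by
    rw [Finset.sum_map]
    refine Finset.sum_congr rfl fun n hn => ?_
    rw [(mem_filter.1 hn).2]
    simp
  rw [h2]
  exact (hsum j).sum_le_tsum _ fun n _ => h0 _

end Pool.Agent.T3H29.SS
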