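import Pool.Agent.T3H29.SS.Stm

set_option autoImplicit false

namespace Pool.Agent.T3H29.SS.COR

open MeasureTheory ProbabilityTheory Filter Topology Finset
open Pool.Agent.T3H29.HR (e)

lemma norm_e (x : ℝ) : ‖e x‖ = 1 := Complex.norm_exp_ofReal_mul_I _

lemma continuous_e : Continuous e := by
  unfold e
  fun_prop

lemma e_lip (x y : ℝ) : ‖e x - e y‖ ≤ 2 * Real.pi * |x - y| := by
  have h1 : e x - e y = e y * (Complex.exp ((2 * Real.pi * (x - y) : ℝ) * Complex.I) - 1) := by
    unfold e
    rw [mul_sub, ← Complex.exp_add, mul_one]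
    congr 2
    push_cast
    ring
  rw [h1, norm_mul, norm_e, one_mul]
  have h2 := Real.norm_exp_I_mul_ofReal_sub_one_le (x := 2 * Real.pi * (x - y))
  rw [mul_comm] at h2
  refine (le_of_eq ?_).trans (h2.trans ?_)
  · congr 2
  · rw [Real.norm_eq_abs, abs_mul, abs_of_pos (by positivity)]

lemma meas_spl {k : ℕ} (n : ℕ) (ω : ℕ → Fin k) : Measurable (spl n ω) := by
  rw [measurable_pi_iff]
  intro i
  unfold spl
  by_cases h : i < n
  · simp only [h, if_true]
    exact measurable_const
  · simp only [h, if_false]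
    exact measurable_pi_apply _

theorem t_COR : S_COR := by
  intro hSMK hSPL hXB hSTP hGME k I β t a z K hβ ht ha hz
  obtain ⟨⟨C, hC0, hC⟩, hXc, hX3, -⟩ := hXB k I
  obtain ⟨hS1, -, hS3, hS4, hS5, -⟩ := hSTP k I
  have hβ0 : 0 < β := by linarith
  have htp : 0 < |t| := abs_pos.mpr ht
  have hT : ∀ n : ℕ, 0 < |t| * β ^ n / β ^ K := fun n => by positivity
  obtain ⟨C2, hC20, hC2⟩ : ∃ C2 : ℝ, 0 ≤ C2 ∧ ∀ n, |a n| ≤ C2 * β ^ n := by
    obtain ⟨B, hB⟩ := ha.norm.bddAbove_range
    refine ⟨max B 0, le_max_right _ _, fun n => ?_⟩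
    have h1 : ‖a n / β ^ n‖ ≤ B := hB ⟨n, rfl⟩
    rw [Real.norm_eq_abs, abs_div, abs_of_pos (a := β ^ n) (by positivity), div_le_iff₀ (by positivity)] at h1
    exact h1.trans (mul_le_mul_of_nonneg_right (le_max_left _ _) (by positivity))
  refine ⟨8 * Real.pi * C * C2 * β ^ K / |t|, 1 / β, by positivity, by positivity,
    by rw [div_lt_one hβ0]; exact hβ, fun m n hmn => ?_⟩
  obtain ⟨gm1, -, gm3, gm4, -, -⟩ := hGME hXB hSTP k I (a m) _ (hT m)
  obtain ⟨gn1, -, gn3, gn4, -, -⟩ := hGME hXB hSTP k I (a n) _ (hT n)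
  set Tm : ℝ := |t| * β ^ m / β ^ K with hTm
  set Tn : ℝ := |t| * β ^ n / β ^ K with hTn
  have hTT : Tm ≤ Tn := by
    rw [hTm, hTn]
    have : β ^ m ≤ β ^ n := pow_le_pow_right₀ hβ.le hmn.le
    gcongr
  have hem : Measurable fun ω => e (a m * X I ω) := (continuous_e.comp (continuous_const.mul hXc)).measurable
  have hen : Measurable fun ω => e (a n * X I ω) := (continuous_e.comp (continuous_const.mul hXc)).measurable
  set Dm : (ℕ → Fin k) → ℂ := fun ω => z m * (e (a m * X I ω) - G I (a m) Tm ω) with hDm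
  set Dn : (ℕ → Fin k) → ℂ := fun ω => z n * (e (a n * X I ω) - G I (a n) Tn ω) with hDn
  have mDm : Measurable Dm := measurable_const.mul (hem.sub gm1)
  have mDn : Measurable Dn := measurable_const.mul (hen.sub gn1)
  have bDm : ∀ ω, ‖Dm ω‖ ≤ 2 := by
    intro ω
    rw [hDm]
    simp only [norm_mul]
    calc ‖z m‖ * ‖e (a m * X I ω) - G I (a m) Tm ω‖ ≤ 1 * (1 + 1) := by
          refine mul_le_mul (hz m) ((norm_sub_le _ _).trans (add_le_add (norm_e _).le (gm3 ω))) (norm_nonneg _)
            zero_le_one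
      _ = 2 := by norm_num
  have bDn : ∀ ω, ‖Dn ω‖ ≤ 2 := by
    intro ω
    rw [hDn]
    simp only [norm_mul]
    calc ‖z n‖ * ‖e (a n * X I ω) - G I (a n) Tn ω‖ ≤ 1 * (1 + 1) := by
          refine mul_le_mul (hz n) ((norm_sub_le _ _).trans (add_le_add (norm_e _).le (gn3 ω))) (norm_nonneg _)
            zero_le_one
      _ = 2 := by norm_num
  have mcDn : Measurable fun ω => (starRingEnd ℂ) (Dn ω) := (Complex.continuous_conj.measurable).comp mDn
  have hF := hSMK hSPL k I (st I Tn) (hS3 Tn (hT n)) (hS4 Tn (hT n)) (fun ω => Dm ω * (starRingEnd ℂ) (Dn ω)) 4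
    (mDm.mul mcDn) (fun ω => by
      rw [norm_mul, RCLike.norm_conj]
      calc ‖Dm ω‖ * ‖Dn ω‖ ≤ 2 * 2 := mul_le_mul (bDm ω) (bDn ω) (norm_nonneg _) (by norm_num)
        _ = 4 := by norm_num)
  have hgoal : (∫ ω, (z m * (e (a m * X I ω) - G I (a m) Tm ω)) *
      (starRingEnd ℂ) (z n * (e (a n * X I ω) - G I (a n) Tn ω)) ∂(PP I)) =
      ∫ ω, Dm ω * (starRingEnd ℂ) (Dn ω) ∂(PP I) := rfl
  rw [hgoal, hF]
  have key : ∀ ω, ‖∫ η, Dm (spl (st I Tn ω) ω η) * (starRingEnd ℂ) (Dn (spl (st I Tn ω) ω η)) ∂(PP I)‖ ≤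
      8 * Real.pi * C * C2 * β ^ K / |t| * (1 / β) ^ (n - m) := by
    intro ω
    set M := st I Tn ω with hM
    set c := Dm (spl M ω ω) with hc
    have hagree : ∀ η : ℕ → Fin k, ∀ i < M, ω i = spl M ω η i := by
      intro η i hi
      unfold spl
      rw [if_pos hi]
    have hstn : ∀ η : ℕ → Fin k, st I Tn (spl M ω η) = M := fun η => hS4 Tn (hT n) ω _ (hagree η)
    have hGn : ∀ η : ℕ → Fin k, G I (a n) Tn (spl M ω η) = G I (a n) Tn ω := fun η => gn4 ω _ (hagree η)
    have hGm : ∀ η : ℕ → Fin k, G I (a m) Tm (spl M ω η) = G I (a m) Tm (spl M ω ω) := by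
      intro η
      refine gm4 _ _ fun i hi => ?_
      have hle : st I Tm (spl M ω ω) ≤ M := (hS5 Tm Tn (hT m) hTT _).trans (hstn ω).le
      rw [← hagree ω i (lt_of_lt_of_le hi hle), ← hagree η i (lt_of_lt_of_le hi hle)]
    have msp : Measurable (spl M ω) := meas_spl M ω
    -- the mean of `Dn` is zero
    have h0 : ∫ η, (starRingEnd ℂ) (Dn (spl M ω η)) ∂(PP I) = 0 := by
      rw [integral_conj]
      have h1 : ∫ η, Dn (spl M ω η) ∂(PP I) = 0 := by
        rw [hDn]
        simp only
        rw [integral_const_mul]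
        have h2 : ∫ η, (e (a n * X I (spl M ω η)) - G I (a n) Tn (spl M ω η)) ∂(PP I) = 0 := by
          simp only [hGn]
          rw [integral_sub]
          · rw [integral_const]
            simp only [probReal_univ, one_smul]
            have : G I (a n) Tn ω = ∫ η, e (a n * X I (spl M ω η)) ∂(PP I) := rfl
            rw [this, sub_self]
          · refine Integrable.of_bound (hen.comp msp).aestronglyMeasurable 1 (ae_of_all _ fun η => (norm_e _).le)
          · exact integrable_const _
        rw [h2, mul_zero]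
      rw [h1, map_zero]
    have hint1 : Integrable (fun η => (Dm (spl M ω η) - c) * (starRingEnd ℂ) (Dn (spl M ω η))) (PP I) := by
      refine Integrable.of_bound (((mDm.comp msp).sub measurable_const).mul (mcDn.comp msp)).aestronglyMeasurable
        (4 * 2) (ae_of_all _ fun η => ?_)
      rw [norm_mul, RCLike.norm_conj]
      refine mul_le_mul ((norm_sub_le _ _).trans ?_) (bDn _) (norm_nonneg _) (by norm_num)
      have := bDm (spl M ω η)
      have := bDm (spl M ω ω)
      linarith
    have hint2 : Integrable (fun η => c * (starRingEnd ℂ) (Dn (spl M ω η))) (PP I) := by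
      refine Integrable.of_bound (measurable_const.mul (mcDn.comp msp)).aestronglyMeasurable
        (2 * 2) (ae_of_all _ fun η => ?_)
      rw [norm_mul, RCLike.norm_conj]
      exact mul_le_mul (bDm _) (bDn _) (norm_nonneg _) (by norm_num)
    have hsplit : ∫ η, Dm (spl M ω η) * (starRingEnd ℂ) (Dn (spl M ω η)) ∂(PP I) =
        ∫ η, (Dm (spl M ω η) - c) * (starRingEnd ℂ) (Dn (spl M ω η)) ∂(PP I) := by
      have : ∀ η, Dm (spl M ω η) * (starRingEnd ℂ) (Dn (spl M ω η)) =
          (Dm (spl M ω η) - c) * (starRingEnd ℂ) (Dn (spl M ω η)) + c * (starRingEnd ℂ) (Dn (spl M ω η)) := by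
        intro η; ring
      simp only [this]
      rw [integral_add hint1 hint2, integral_const_mul, h0, mul_zero, add_zero]
    rw [hsplit]
    have hb : ∀ η, ‖(Dm (spl M ω η) - c) * (starRingEnd ℂ) (Dn (spl M ω η))‖ ≤
        8 * Real.pi * C * C2 * β ^ K / |t| * (1 / β) ^ (n - m) := by
      intro η
      rw [norm_mul, RCLike.norm_conj]
      have e1 : Dm (spl M ω η) - c = z m * (e (a m * X I (spl M ω η)) - e (a m * X I (spl M ω ω))) := by
        rw [hc, hDm]
        simp only [hGm η]
        ring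
      have hRM : |R I ω M| ≤ 1 / Tn := by
        rw [le_div_iff₀ (hT n)]
        exact hS1 Tn (hT n) ω
      have e2 : ‖Dm (spl M ω η) - c‖ ≤ 2 * Real.pi * (C2 * β ^ m * (1 / Tn * (2 * C))) := by
        rw [e1, norm_mul]
        calc ‖z m‖ * ‖e (a m * X I (spl M ω η)) - e (a m * X I (spl M ω ω))‖
            ≤ 1 * (2 * Real.pi * |a m * X I (spl M ω η) - a m * X I (spl M ω ω)|) :=
              mul_le_mul (hz m) (e_lip _ _) (norm_nonneg _) zero_le_one
          _ = 2 * Real.pi * (|a m| * (|R I ω M| * |X I η - X I ω|)) := by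
              rw [hX3, hX3, ← abs_mul, ← abs_mul, one_mul]
              congr 2
              ring
          _ ≤ 2 * Real.pi * (C2 * β ^ m * (1 / Tn * (2 * C))) := by
              have h3 : |X I η - X I ω| ≤ 2 * C := by
                have h4 := abs_le.mp (hC η)
                have h5 := abs_le.mp (hC ω)
                rw [abs_le]
                constructor <;> linarith [h4.1, h4.2, h5.1, h5.2]
              have hTn0 : 0 ≤ 1 / Tn := by have := hT n; positivity
              have h6 : |R I ω M| * |X I η - X I ω| ≤ 1 / Tn * (2 * C) :=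
                mul_le_mul hRM h3 (abs_nonneg _) hTn0
              have h7 : |a m| * (|R I ω M| * |X I η - X I ω|) ≤ C2 * β ^ m * (1 / Tn * (2 * C)) :=
                mul_le_mul (hC2 m) h6 (by positivity) (by positivity)
              exact mul_le_mul_of_nonneg_left h7 (by positivity)
      calc ‖Dm (spl M ω η) - c‖ * ‖Dn (spl M ω η)‖ ≤ 2 * Real.pi * (C2 * β ^ m * (1 / Tn * (2 * C))) * 2 :=
            mul_le_mul e2 (bDn _) (norm_nonneg _) ((norm_nonneg _).trans e2)
        _ = 8 * Real.pi * C * C2 * β ^ K / |t| * (1 / β) ^ (n - m) := by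
            rw [hTn]
            have hn : β ^ n = β ^ m * β ^ (n - m) := by
              rw [← pow_add]
              congr 1
              omega
            rw [hn, one_div_pow]
            have h8 : β ^ m ≠ 0 := by positivity
            have h9 : β ^ (n - m) ≠ 0 := by positivity
            have h10 : β ^ K ≠ 0 := by positivity
            field_simp
            ring
    refine (norm_integral_le_of_norm_le_const (ae_of_all _ hb)).trans ?_
    simp
  refine (norm_integral_le_of_norm_le_const (ae_of_all _ key)).trans ?_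
  simp

end Pool.Agent.T3H29.SS.COR
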