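import Pool.Agent.T3H29.SS.Stm

set_option autoImplicit false

namespace Pool.Agent.T3H29.SS.EQD

open MeasureTheory Filter Topology Finset TopologicalSpace
open Pool.Agent.T3H29.HR (e)

/-- the mean value over the circle -/
noncomputable def mean (g : C(UnitAddCircle, ℂ)) : ℂ := ∫ t, g t ∂AddCircle.haarAddCircle

lemma mean_eq (g : C(UnitAddCircle, ℂ)) : mean g = fourierCoeff (g : UnitAddCircle → ℂ) 0 := by
  unfold mean fourierCoeff
  simp

lemma int_g (g : C(UnitAddCircle, ℂ)) : Integrable (fun t => g t) AddCircle.haarAddCircle :=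
  Integrable.of_bound g.continuous.aestronglyMeasurable ‖g‖ (ae_of_all _ fun t => g.norm_coe_le_norm t)

lemma mean_add (g h : C(UnitAddCircle, ℂ)) : mean (g + h) = mean g + mean h := by
  unfold mean
  rw [← integral_add (int_g g) (int_g h)]
  rfl

lemma mean_smul (c : ℂ) (g : C(UnitAddCircle, ℂ)) : mean (c • g) = c * mean g := by
  unfold mean
  rw [← integral_const_mul]
  rfl

lemma mean_sub_le (g h : C(UnitAddCircle, ℂ)) : ‖mean g - mean h‖ ≤ ‖g - h‖ := by
  unfold mean
  rw [← integral_sub (int_g g) (int_g h)]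
  refine (norm_integral_le_of_norm_le_const (ae_of_all _ fun t => (g - h).norm_coe_le_norm t)).trans ?_
  simp

lemma mean_fourier (l : ℤ) (hl : l ≠ 0) : mean (fourier l) = 0 := by
  rw [mean_eq, fourierCoeff_fourier]
  exact Pi.single_eq_of_ne hl.symm 1

lemma mean_one : mean (fourier 0) = 1 := by
  rw [mean_eq, fourierCoeff_fourier]
  simp

/-- the averages -/
noncomputable def av (v : ℕ → ℝ) (g : C(UnitAddCircle, ℂ)) (M : ℕ) : ℂ :=
  (∑ m ∈ range M, g (v m : UnitAddCircle)) / M

lemma av_sub_le (v : ℕ → ℝ) (g h : C(UnitAddCircle, ℂ)) (M : ℕ) : ‖av v g M - av v h M‖ ≤ ‖g - h‖ := by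
  unfold av
  rw [← sub_div, ← sum_sub_distrib, norm_div]
  rcases Nat.eq_zero_or_pos M with hM | hM
  · subst hM
    simp
  · have hM' : (0 : ℝ) < M := by exact_mod_cast hM
    rw [RCLike.norm_natCast, div_le_iff₀ hM']
    refine (norm_sum_le _ _).trans ?_
    calc ∑ m ∈ range M, ‖g (v m : UnitAddCircle) - h (v m : UnitAddCircle)‖
        ≤ ∑ m ∈ range M, ‖g - h‖ := sum_le_sum fun m _ => (g - h).norm_coe_le_norm _
      _ = ‖g - h‖ * M := by simp [mul_comm]

lemma e_eq (x : ℝ) : Pool.Agent.T3H29.HR.e x = Complex.exp (2 * Real.pi * Complex.I * x) := by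
  unfold Pool.Agent.T3H29.HR.e
  congr 1
  push_cast
  ring

lemma weyl (v : ℕ → ℝ) (hv : ∀ l : ℤ, l ≠ 0 →
    Tendsto (fun M : ℕ => ‖∑ m ∈ range M, e (l * v m)‖ / M) atTop (𝓝 0)) (g : C(UnitAddCircle, ℂ)) :
    Tendsto (av v g) atTop (𝓝 (mean g)) := by
  have hspan : ∀ p ∈ Submodule.span ℂ (Set.range (@fourier (1 : ℝ))), Tendsto (av v p) atTop (𝓝 (mean p)) := by
    intro p hp
    induction hp using Submodule.span_induction with
    | mem x hx =>
      obtain ⟨l, rfl⟩ := hx
      by_cases hl : l = 0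
      · subst hl
        rw [mean_one]
        refine tendsto_const_nhds.congr' ?_
        filter_upwards [eventually_gt_atTop 0] with M hM
        unfold av
        have : (M : ℂ) ≠ 0 := by exact_mod_cast hM.ne'
        simp [this]
      · rw [mean_fourier l hl, tendsto_zero_iff_norm_tendsto_zero]
        refine (hv l hl).congr fun M => ?_
        unfold av
        rw [norm_div, RCLike.norm_natCast]
        congr 2
        refine sum_congr rfl fun m _ => ?_
        rw [fourier_coe_apply, e_eq]
        congr 1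
        push_cast
        ring
    | zero =>
      have h1 : mean 0 = 0 := by simp [mean]
      have h2 : av v 0 = fun _ => 0 := by
        funext M
        simp [av]
      rw [h1, h2]
      exact tendsto_const_nhds
    | add x y _ _ hx hy =>
      rw [mean_add]
      refine (hx.add hy).congr fun M => ?_
      unfold av
      rw [← add_div, ← sum_add_distrib]
      rfl
    | smul c x _ hx =>
      rw [mean_smul]
      refine (hx.const_mul c).congr fun M => ?_
      unfold av
      rw [← mul_div_assoc, mul_sum]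
      rfl
  rw [Metric.tendsto_nhds]
  intro ε hε
  have hg : g ∈ (Submodule.span ℂ (Set.range (@fourier (1 : ℝ)))).topologicalClosure := by
    rw [span_fourier_closure_eq_top]
    trivial
  obtain ⟨p, hp, hgp⟩ := Metric.mem_closure_iff.mp (show g ∈ closure _ from hg) (ε / 3) (by positivity)
  rw [dist_eq_norm] at hgp
  have h1 := Metric.tendsto_nhds.mp (hspan p hp) (ε / 3) (by positivity)
  filter_upwards [h1] with M hM
  rw [dist_eq_norm] at hM ⊢
  have h2 := av_sub_le v g p M
  have h3 := mean_sub_le p g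
  rw [norm_sub_rev p g] at h3
  calc ‖av v g M - mean g‖ = ‖(av v g M - av v p M) + (av v p M - mean p) + (mean p - mean g)‖ := by
        congr 1; ring
    _ ≤ ‖av v g M - av v p M‖ + ‖av v p M - mean p‖ + ‖mean p - mean g‖ :=
        norm_add₃_le
    _ < ε := by linarith

theorem t_EQD : S_EQD := by
  intro θ u hθ hW F hF hFc hF0 c ε hε
  let f : C(ℝ, ℂ) := ⟨fun x => (F (θ * x) : ℂ), by fun_prop⟩
  have hfc : (fun x : ℝ => (f x : ℂ)) =ᶠ[cocompact ℝ] 0 := by
    have h1 : F =ᶠ[cocompact ℝ] 0 := by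
      have := hasCompactSupport_iff_eventuallyEq.mp hFc
      rwa [coclosedCompact_eq_cocompact] at this
    have h2 : Tendsto (fun x : ℝ => θ * x) (cocompact ℝ) (cocompact ℝ) :=
      (Homeomorph.mulLeft₀ θ hθ.ne').isClosedEmbedding.tendsto_cocompact
    filter_upwards [h2.eventually h1] with x hx
    show ((F (θ * x) : ℝ) : ℂ) = 0
    rw [hx]
    simp
  have hO : (fun x : ℝ => (f x : ℂ)) =O[cocompact ℝ] fun x : ℝ => |x| ^ (-(2 : ℝ)) :=
    (Asymptotics.isBigO_zero _ _).congr' hfc.symm (EventuallyEq.rfl)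
  have hf : ∀ K : Compacts ℝ, Summable fun n : ℤ => ‖(f.comp (ContinuousMap.addRight (n : ℝ))).restrict K‖ :=
    fun K => summable_of_isBigO (Real.summable_abs_int_rpow (by norm_num : (1 : ℝ) < 2))
      ((isBigO_norm_restrict_cocompact f (by norm_num : (0 : ℝ) < 2) hO K).comp_tendsto Int.tendsto_coe_cofinite)
  let g : C(UnitAddCircle, ℂ) :=
    ⟨(f.periodic_tsum_comp_add_zsmul 1).lift, continuous_coinduced_dom.mpr (map_continuous _)⟩
  have hg : ∀ x : ℝ, g (x : UnitAddCircle) = ∑' n : ℤ, (F (θ * (x + n)) : ℂ) := by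
    intro x
    have := (ContinuousMap.hasSum_apply (ContinuousMap.summable_of_locally_summable_norm hf).hasSum x).tsum_eq
    simp only [ContinuousMap.comp_apply, ContinuousMap.coe_addRight] at this
    show (f.periodic_tsum_comp_add_zsmul 1).lift (x : UnitAddCircle) = _
    rw [Function.Periodic.lift_coe]
    simp only [zsmul_one]
    rw [← this]
    rfl
  have hI : mean g = (((∫ x, F x) / θ : ℝ) : ℂ) := by
    rw [mean_eq]
    have h1 : fourierCoeff (g : UnitAddCircle → ℂ) 0 = _ := Real.fourierCoeff_tsum_comp_add hf 0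
    rw [h1, Real.fourier_eq']
    have h2 : ∫ v : ℝ, Complex.exp (((-2 * Real.pi * inner ℝ v ((0 : ℤ) : ℝ) : ℝ) : ℂ) * Complex.I) • f v =
        ∫ v : ℝ, ((F (θ * v) : ℝ) : ℂ) := by
      congr 1
      funext v
      simp [f]
    rw [h2, integral_complex_ofReal]
    congr 1
    rw [Measure.integral_comp_mul_left (fun x => F x) θ, abs_inv, abs_of_pos hθ, smul_eq_mul]
    field_simp
  have hlim := weyl (fun m => (c + u m) / θ) (fun l hl => by
    refine (hW l hl).congr fun M => ?_
    congr 1
    have h1 : ∀ m, e (l * ((c + u m) / θ)) = e (l * c / θ) * e (l * u m / θ) := by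
      intro m
      rw [e_eq, e_eq, e_eq, ← Complex.exp_add]
      congr 1
      push_cast
      ring
    simp only [h1]
    rw [← mul_sum, norm_mul]
    have : ‖e (l * c / θ)‖ = 1 := Complex.norm_exp_ofReal_mul_I _
    rw [this, one_mul]) g
  rw [hI] at hlim
  have h3 := Metric.tendsto_nhds.mp hlim ε hε
  filter_upwards [h3, eventually_gt_atTop 0] with M hM hM0
  have hM' : (0 : ℝ) < M := by exact_mod_cast hM0
  have h4 : av (fun m => (c + u m) / θ) g M =
      (((∑ m ∈ range M, ∑' n : ℤ, F (n * θ + c + u m)) / M : ℝ) : ℂ) := by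
    unfold av
    push_cast
    congr 1
    refine sum_congr rfl fun m _ => ?_
    rw [hg]
    refine tsum_congr fun n => ?_
    congr 2
    field_simp
    ring
  rw [h4, dist_eq_norm, ← Complex.ofReal_sub, Complex.norm_real, Real.norm_eq_abs] at hM
  have h5 := (abs_lt.mp hM).2
  have h6 : (∑ m ∈ range M, ∑' n : ℤ, F (n * θ + c + u m)) / M < (∫ x, F x) / θ + ε := by linarith
  rw [div_lt_iff₀ hM'] at h6
  linarith

end Pool.Agent.T3H29.SS.EQD
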