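import Pool.Agent.T3H29.SS.Stm

/-! GME: the conditional expectation of `e(a X)` -/

set_option autoImplicit false

namespace Pool.Agent.T3H29.SS

open MeasureTheory ProbabilityTheory Filter Topology Finset
open Pool.Agent.T3H29.HR (e)

variable {k : ℕ} (I : Ifs k)

theorem GME_e_add (x y : ℝ) : e (x + y) = e x * e y := by
  unfold e
  rw [← Complex.exp_add]
  congr 1
  push_cast
  ring

theorem GME_norm_e (x : ℝ) : ‖e x‖ = 1 := by
  unfold e
  exact Complex.norm_exp_ofReal_mul_I _

theorem GME_cont_e : Continuous e := by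
  unfold e
  fun_prop

theorem GME_e_sub (x y : ℝ) : ‖e x - e y‖ ≤ 2 * Real.pi * |x - y| := by
  have h1 : e x - e y = e y * (e (x - y) - 1) := by
    rw [mul_sub, ← GME_e_add, mul_one]
    congr 2
    ring
  rw [h1, norm_mul, GME_norm_e, one_mul]
  unfold e
  have h2 := Real.norm_exp_I_mul_ofReal_sub_one_le (x := 2 * Real.pi * (x - y))
  rw [mul_comm Complex.I] at h2
  refine h2.trans (le_of_eq ?_)
  rw [Real.norm_eq_abs, abs_mul, abs_of_pos (by positivity : (0 : ℝ) < 2 * Real.pi)]

theorem GME_eval {Ω : Type} [MeasurableSpace Ω] {f : Ω → ℕ → ℝ} (hf : ∀ n, Measurable fun ω => f ω n)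
    {m : Ω → ℕ} (hm : Measurable m) : Measurable fun ω => f ω (m ω) := by
  have h : Measurable (fun z : Ω × ℕ => f z.1 z.2) := measurable_from_prod_countable_left hf
  exact h.comp (measurable_id.prodMk hm)

theorem GME_R_meas (n : ℕ) : Measurable (fun ω : ℕ → Fin k => R I ω n) := by
  unfold R
  exact Finset.measurable_prod _ fun i _ => (Measurable.of_discrete (f := I.r)).comp (measurable_pi_apply i)

theorem GME_S_meas (n : ℕ) : Measurable (fun ω : ℕ → Fin k => S I ω n) := by
  unfold S
  exact Finset.measurable_sum _ fun i _ => (GME_R_meas I i).mul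
    ((Measurable.of_discrete (f := I.τ)).comp (measurable_pi_apply i))

theorem GME_R_congr {ω ω' : ℕ → Fin k} {n : ℕ} (h : ∀ i < n, ω i = ω' i) : R I ω n = R I ω' n := by
  unfold R
  exact Finset.prod_congr rfl fun i hi => by rw [h i (Finset.mem_range.1 hi)]

theorem GME_S_congr {ω ω' : ℕ → Fin k} {n : ℕ} (h : ∀ i < n, ω i = ω' i) : S I ω n = S I ω' n := by
  unfold S
  refine Finset.sum_congr rfl fun i hi => ?_
  rw [Finset.mem_range] at hi
  rw [GME_R_congr I (fun j hj => h j (by omega)), h i hi]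

theorem GME_G (hXB : S_XB) (a T : ℝ) (ω : ℕ → Fin k) :
    G I a T ω = e (a * S I ω (st I T ω)) * ft I (a * R I ω (st I T ω)) := by
  unfold G ft
  rw [← integral_const_mul]
  refine integral_congr_ae (Eventually.of_forall fun η => ?_)
  show e (a * X I (spl (st I T ω) ω η)) = e (a * S I ω (st I T ω)) * e (a * R I ω (st I T ω) * X I η)
  rw [(hXB k I).2.2.1, ← GME_e_add]
  congr 1
  ring

theorem t_GME : S_GME := by
  intro hXB hSTP k I a T hT
  obtain ⟨⟨C, hC0, hC⟩, hXc, -, -⟩ := hXB k I
  have hlip : ∀ ξ ξ' : ℝ, ‖ft I ξ - ft I ξ'‖ ≤ (2 * Real.pi * C) * |ξ - ξ'| := by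
    intro ξ ξ'
    have hint : ∀ ξ : ℝ, Integrable (fun ω => e (ξ * X I ω)) (PP I) := by
      intro ξ
      refine Integrable.of_bound
        ((GME_cont_e.comp (continuous_const.mul hXc)).measurable.aestronglyMeasurable) 1
        (Eventually.of_forall fun ω => ?_)
      exact (GME_norm_e _).le
    unfold ft
    rw [← integral_sub (hint ξ) (hint ξ')]
    have h1 : ∀ ω, ‖e (ξ * X I ω) - e (ξ' * X I ω)‖ ≤ (2 * Real.pi * C) * |ξ - ξ'| := by
      intro ω
      refine (GME_e_sub _ _).trans ?_
      rw [← sub_mul, abs_mul]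
      have h2 : |ξ - ξ'| * |X I ω| ≤ |ξ - ξ'| * C := mul_le_mul_of_nonneg_left (hC ω) (abs_nonneg _)
      have h3 : 0 < 2 * Real.pi := by positivity
      nlinarith
    have h4 := norm_integral_le_of_norm_le_const (μ := PP I) (Eventually.of_forall h1)
    simpa using h4
  have hcont : Continuous (ft I) := by
    have h0 : 0 ≤ 2 * Real.pi * C := by positivity
    refine (LipschitzWith.of_dist_le_mul (K := ⟨2 * Real.pi * C, h0⟩) fun x y => ?_).continuous
    rw [dist_eq_norm, Real.dist_eq]
    exact hlip x y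
  have hst : Measurable (st I T) := (hSTP k I).2.2.1 T hT
  refine ⟨?_, ?_, ?_, ?_, hcont, 2 * Real.pi * C, by positivity, hlip⟩
  · have h1 : G I a T = fun ω => e (a * S I ω (st I T ω)) * ft I (a * R I ω (st I T ω)) :=
      funext fun ω => GME_G I hXB a T ω
    rw [h1]
    exact (GME_cont_e.measurable.comp ((GME_eval (GME_S_meas I) hst).const_mul a)).mul
      (hcont.measurable.comp ((GME_eval (GME_R_meas I) hst).const_mul a))
  · intro ω
    rw [GME_G I hXB, norm_mul, GME_norm_e, one_mul]
  · intro ω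
    unfold G
    have h1 := norm_integral_le_of_norm_le_const (μ := PP I)
      (Eventually.of_forall fun η : ℕ → Fin k => (GME_norm_e (a * X I (spl (st I T ω) ω η))).le)
    simpa using h1
  · intro ω ω' h
    have h1 : st I T ω' = st I T ω := (hSTP k I).2.2.2.1 T hT ω ω' h
    rw [GME_G I hXB, GME_G I hXB, h1, GME_R_congr I h, GME_S_congr I h]

end Pool.Agent.T3H29.SS
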