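import Pool.Agent.T3H29.SS.Stm
import Pool.Agent.H340R2.LW

/-! # Irrationality of quotients of logarithms -/

set_option autoImplicit false

namespace Pool.Agent.T3H29.SS

lemma irr_exp (α : ℝ) (s : ℚ) (halg : IsAlgebraic ℚ α) (hs : s ≠ 0) : α ≠ Real.exp (s : ℝ) := by
  intro h
  have hne : ((s : ℚ) : ℂ) ≠ 0 := by exact_mod_cast hs
  have hal : IsAlgebraic ℚ ((s : ℚ) : ℂ) := by
    have : ((s : ℚ) : ℂ) = algebraMap ℚ ℂ s := by simp
    rw [this]
    exact isAlgebraic_algebraMap _
  have h5 := Pool.Agent.H340R2.LW.transcendental_cexp _ hal hne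
  apply h5
  have h2 : Complex.exp ((s : ℚ) : ℂ) = ((α : ℝ) : ℂ) := by
    rw [h]
    push_cast
    rfl
  rw [h2]
  exact (isAlgebraic_algebraMap_iff (algebraMap ℝ ℂ).injective).2 halg

lemma irr_pi (α : ℝ) (s : ℚ) (halg : IsAlgebraic ℚ α) (hs : s ≠ 0) : α ≠ Real.pi ^ (s : ℝ) := by
  intro h
  have hpi := Real.pi_pos
  have hd : (s.den : ℝ) ≠ 0 := by exact_mod_cast s.den_nz
  have hsn : s.num ≠ 0 := Rat.num_ne_zero.2 hs
  have h1 : α ^ s.den = Real.pi ^ s.num := by
    rw [h, ← Real.rpow_natCast, ← Real.rpow_mul hpi.le, ← Real.rpow_intCast]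
    congr 1
    have : (s : ℝ) = (s.num : ℝ) / (s.den : ℝ) := by exact_mod_cast (Rat.num_div_den s).symm
    rw [this, div_mul_cancel₀ _ hd]
  have h2 : IsAlgebraic ℚ (Real.pi ^ s.num) := by
    rw [← h1]
    exact halg.pow _
  have h3 : IsAlgebraic ℚ (Real.pi ^ s.num.natAbs) := by
    rcases Int.natAbs_eq s.num with h4 | h4
    · rw [h4, zpow_natCast] at h2
      exact h2
    · rw [h4, zpow_neg, zpow_natCast] at h2
      exact IsAlgebraic.inv_iff.1 h2
  exact Pool.Agent.H340R2.LW.transcendental_pi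
    (IsAlgebraic.of_pow (Int.natAbs_pos.2 hsn) h3)

theorem t_IRR : S_IRR := by
  intro α q hα h1 halg hq
  have hlog : Real.log α ≠ 0 := Real.log_ne_zero_of_pos_of_ne_one hα h1
  have hq0 : (q : ℝ) ≠ 0 := by exact_mod_cast hq.ne'
  constructor
  · rintro ⟨r, hr⟩
    rw [Real.log_exp] at hr
    have e1 : Real.log α = ((r * q : ℚ) : ℝ) := by
      push_cast
      rw [hr, div_mul_cancel₀ _ hq0]
    have hs : r * q ≠ 0 := by
      intro h0
      rw [h0] at e1
      exact hlog (by simpa using e1)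
    refine irr_exp α (r * q) halg hs ?_
    rw [← e1, Real.exp_log hα]
  · rintro ⟨r, hr⟩
    have hpi := Real.pi_pos
    have hlp : Real.log Real.pi ≠ 0 := by
      have : 0 < Real.log Real.pi := Real.log_pos (by linarith [Real.pi_gt_three])
      exact this.ne'
    rw [Real.log_rpow hpi] at hr
    have e1 : Real.log α = ((r * q : ℚ) : ℝ) * Real.log Real.pi := by
      push_cast
      rw [hr]
      field_simp
    have hs : r * q ≠ 0 := by
      intro h0
      rw [h0] at e1
      exact hlog (by simpa using e1)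
    refine irr_pi α (r * q) halg hs ?_
    rw [Real.rpow_def_of_pos hpi, mul_comm, ← e1, Real.exp_log hα]

end Pool.Agent.T3H29.SS
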