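import Pool.Agent.T3H29.SS.Stm

/-!
# LAW: a self-similar measure is the law of the random series
-/

set_option autoImplicit false

namespace Pool.Agent.T3H29.SS

open MeasureTheory ProbabilityTheory Filter Topology Finset
open scoped NNReal ENNReal BoundedContinuousFunction

namespace LAW

variable {k : ℕ} (I : Ifs k)

theorem exists_q : ∃ q : ℝ, 0 ≤ q ∧ q < 1 ∧ ∀ i, |I.r i| ≤ q := by
  rcases isEmpty_or_nonempty (Fin k) with h | h
  · exact ⟨0, le_rfl, one_pos, fun i => h.elim i⟩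
  · obtain ⟨j, hj⟩ := Finite.exists_max (fun i => |I.r i|)
    exact ⟨|I.r j|, abs_nonneg _, I.r_lt j, hj⟩

theorem tendsto_R (ω : ℕ → Fin k) : Tendsto (fun n => R I ω n) atTop (𝓝 0) := by
  obtain ⟨q, hq0, hq1, hq⟩ := exists_q I
  refine squeeze_zero_norm (a := fun n => q ^ n) (fun n => ?_) (tendsto_pow_atTop_nhds_zero_of_lt_one hq0 hq1)
  unfold R
  rw [Real.norm_eq_abs, Finset.abs_prod]
  calc ∏ i ∈ range n, |I.r (ω i)| ≤ ∏ _i ∈ range n, q :=
        Finset.prod_le_prod (fun _ _ => abs_nonneg _) (fun i _ => hq (ω i))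
    _ = q ^ n := by rw [Finset.prod_const, Finset.card_range]

theorem measurable_R (n : ℕ) : Measurable (fun ω : ℕ → Fin k => R I ω n) := by
  unfold R
  refine Finset.measurable_prod _ fun i _ => ?_
  exact (Measurable.of_discrete (f := I.r)).comp (measurable_pi_apply i)

theorem measurable_S (n : ℕ) : Measurable (fun ω : ℕ → Fin k => S I ω n) := by
  unfold S
  refine Finset.measurable_sum _ fun i _ => ?_
  exact (measurable_R I i).mul ((Measurable.of_discrete (f := I.τ)).comp (measurable_pi_apply i))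

/-- the map `f_{ω_0} ∘ ⋯ ∘ f_{ω_{n-1}}` -/
noncomputable def TT (n : ℕ) (ω : ℕ → Fin k) (x : ℝ) : ℝ := S I ω n + R I ω n * x

theorem measurable_TT (n : ℕ) : Measurable (fun z : (ℕ → Fin k) × ℝ => TT I n z.1 z.2) := by
  unfold TT
  exact ((measurable_S I n).comp measurable_fst).add (((measurable_R I n).comp measurable_fst).mul measurable_snd)

theorem R_spl (n : ℕ) (ω η : ℕ → Fin k) : R I (spl 1 ω η) (n + 1) = I.r (ω 0) * R I η n := by
  unfold R
  rw [Finset.prod_range_succ']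
  rw [mul_comm]
  congr 1

theorem S_spl (n : ℕ) (ω η : ℕ → Fin k) :
    S I (spl 1 ω η) (n + 1) = I.τ (ω 0) + I.r (ω 0) * S I η n := by
  unfold S
  rw [Finset.sum_range_succ', Finset.mul_sum, add_comm]
  congr 1
  · have h0 : R I (spl 1 ω η) 0 = 1 := by simp [R]
    rw [h0, one_mul]
    rfl
  · refine Finset.sum_congr rfl fun i _ => ?_
    rw [R_spl, mul_assoc]
    rfl

theorem TT_spl (n : ℕ) (ω η : ℕ → Fin k) (x : ℝ) :
    TT I (n + 1) (spl 1 ω η) x = I.r (ω 0) * TT I n η x + I.τ (ω 0) := by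
  unfold TT
  rw [R_spl, S_spl]
  ring

theorem lintegral_wt (g : Fin k → ℝ≥0∞) : ∫⁻ i, g i ∂(wt I) = ∑ i, ENNReal.ofReal (I.p i) * g i := by
  unfold wt
  rw [lintegral_finsetSum_measure]
  refine Finset.sum_congr rfl fun i _ => ?_
  rw [lintegral_smul_measure, lintegral_dirac]
  rfl

theorem lintegral_stat {μ : Measure ℝ} (hμ : Stationary I μ) {g : ℝ → ℝ≥0∞} (hg : Measurable g) :
    ∑ i, ENNReal.ofReal (I.p i) * ∫⁻ x, g (I.r i * x + I.τ i) ∂μ = ∫⁻ x, g x ∂μ := by
  conv_rhs => rw [hμ]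
  rw [lintegral_finsetSum_measure]
  refine Finset.sum_congr rfl fun i _ => ?_
  rw [lintegral_smul_measure, lintegral_map hg (by fun_prop)]
  rfl

theorem measurable_spl1 : Measurable (fun z : (ℕ → Fin k) × (ℕ → Fin k) => spl 1 z.1 z.2) := by
  refine measurable_pi_iff.2 fun i => ?_
  unfold spl
  by_cases h : i < 1
  · simp only [h, if_true]
    exact (measurable_pi_apply i).comp measurable_fst
  · simp only [h, if_false]
    exact (measurable_pi_apply (i - 1)).comp measurable_snd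

theorem key (hSPL : S_SPL) {μ : Measure ℝ} [IsProbabilityMeasure μ] (hμ : Stationary I μ) :
    ∀ (n : ℕ) (g : ℝ → ℝ≥0∞), Measurable g →
      ∫⁻ ω, ∫⁻ x, g (TT I n ω x) ∂μ ∂(PP I) = ∫⁻ x, g x ∂μ := by
  intro n
  induction n with
  | zero =>
    intro g hg
    have h : ∀ (ω : ℕ → Fin k) (x : ℝ), TT I 0 ω x = x := by
      intro ω x
      simp [TT, S, R]
    simp only [h, lintegral_const, measure_univ, mul_one]
  | succ n ih =>
    intro g hg
    have hm : Measurable fun ω : ℕ → Fin k => ∫⁻ x, g (TT I (n + 1) ω x) ∂μ :=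
      Measurable.lintegral_prod_right' (f := fun z : (ℕ → Fin k) × ℝ => g (TT I (n + 1) z.1 z.2))
        (hg.comp (measurable_TT I (n + 1)))
    have e1 : ∫⁻ ω, ∫⁻ x, g (TT I (n + 1) ω x) ∂μ ∂(PP I) =
        ∫⁻ z, ∫⁻ x, g (TT I (n + 1) (spl 1 z.1 z.2) x) ∂μ ∂((PP I).prod (PP I)) := by
      conv_lhs => rw [← hSPL k I 1]
      rw [lintegral_map hm measurable_spl1]
    have hm2 : Measurable fun z : (ℕ → Fin k) × (ℕ → Fin k) =>
        ∫⁻ x, g (TT I (n + 1) (spl 1 z.1 z.2) x) ∂μ := hm.comp measurable_spl1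
    rw [e1, lintegral_prod _ hm2.aemeasurable]
    have e2 : ∀ ω : ℕ → Fin k, ∫⁻ η, ∫⁻ x, g (TT I (n + 1) (spl 1 ω η) x) ∂μ ∂(PP I) =
        ∫⁻ x, g (I.r (ω 0) * x + I.τ (ω 0)) ∂μ := by
      intro ω
      have := ih (fun x => g (I.r (ω 0) * x + I.τ (ω 0))) (hg.comp (by fun_prop))
      rw [← this]
      simp only [TT_spl]
    simp only [e2]
    have e3 : ∫⁻ ω, ∫⁻ x, g (I.r (ω 0) * x + I.τ (ω 0)) ∂μ ∂(PP I) =
        ∫⁻ i, ∫⁻ x, g (I.r i * x + I.τ i) ∂μ ∂(wt I) := by
      have h0 : (PP I).map (fun ω : ℕ → Fin k => ω 0) = wt I :=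
        Measure.infinitePi_map_eval (fun _ : ℕ => wt I) 0
      conv_rhs => rw [← h0]
      rw [lintegral_map (Measurable.of_discrete) (measurable_pi_apply 0)]
    rw [e3, lintegral_wt, lintegral_stat I hμ hg]

end LAW

open LAW

theorem t_LAW : S_LAW := by
  intro hXB hSPL k I μ _ hμ
  obtain ⟨⟨C, hC0, hC⟩, hcont, _, hX⟩ := hXB k I
  have hXm : Measurable (X I) := hcont.measurable
  have : IsProbabilityMeasure ((PP I).map (X I)) := Measure.isProbabilityMeasure_map hXm.aemeasurable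
  have hlim : ∀ (ω : ℕ → Fin k) (x : ℝ), Tendsto (fun n => TT I n ω x) atTop (𝓝 (X I ω)) := by
    intro ω x
    have h1 : ∀ n, TT I n ω x = X I ω + R I ω n * (x - X I (fun i => ω (i + n))) := by
      intro n
      unfold TT
      rw [hX n ω]
      ring
    have h2 : Tendsto (fun n => R I ω n * (x - X I (fun i => ω (i + n)))) atTop (𝓝 0) := by
      refine squeeze_zero_norm (a := fun n => ‖R I ω n‖ * (|x| + C)) (fun n => ?_) ?_
      · rw [norm_mul]
        refine mul_le_mul_of_nonneg_left ?_ (norm_nonneg _)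
        rw [Real.norm_eq_abs]
        exact (abs_sub _ _).trans (add_le_add le_rfl (hC _))
      · have := (tendsto_R I ω).norm.mul_const (|x| + C)
        simpa using this
    have h3 := h2.const_add (X I ω)
    simp only [h1]
    simpa using h3
  refine (ext_of_forall_lintegral_eq_of_IsFiniteMeasure fun F => ?_).symm
  have hFm : Measurable fun x => ((F x : ℝ≥0) : ℝ≥0∞) := by
    have := F.continuous
    fun_prop
  rw [lintegral_map hFm hXm]
  have h1 : Tendsto (fun n => ∫⁻ z, ((F (TT I n z.1 z.2) : ℝ≥0) : ℝ≥0∞) ∂((PP I).prod μ)) atTop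
      (𝓝 (∫⁻ z, ((F (X I z.1) : ℝ≥0) : ℝ≥0∞) ∂((PP I).prod μ))) := by
    obtain ⟨M, hM⟩ : ∃ M : ℝ≥0, ∀ x, F x ≤ M := ⟨nndist F 0, fun x => BoundedContinuousFunction.NNReal.upper_bound F x⟩
    refine tendsto_lintegral_of_dominated_convergence (fun _ => (M : ℝ≥0∞)) (fun n => hFm.comp (measurable_TT I n))
      (fun n => Eventually.of_forall fun z => ?_) ?_ (Eventually.of_forall fun z => ?_)
    · exact ENNReal.coe_le_coe.2 (hM _)
    · rw [lintegral_const, measure_univ, mul_one]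
      exact ENNReal.coe_ne_top
    · have := (F.continuous.tendsto (X I z.1)).comp (hlim z.1 z.2)
      exact (ENNReal.continuous_coe.tendsto _).comp this
  have h2 : ∀ n, ∫⁻ z, ((F (TT I n z.1 z.2) : ℝ≥0) : ℝ≥0∞) ∂((PP I).prod μ) = ∫⁻ x, ((F x : ℝ≥0) : ℝ≥0∞) ∂μ := by
    intro n
    have hm : Measurable (fun z : (ℕ → Fin k) × ℝ => ((F (TT I n z.1 z.2) : ℝ≥0) : ℝ≥0∞)) :=
      hFm.comp (measurable_TT I n)
    rw [lintegral_prod _ hm.aemeasurable]
    exact key I hSPL hμ n (fun x => ((F x : ℝ≥0) : ℝ≥0∞)) hFm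
  simp only [h2] at h1
  have h3 := tendsto_nhds_unique tendsto_const_nhds h1
  have hm : Measurable (fun z : (ℕ → Fin k) × ℝ => ((F (X I z.1) : ℝ≥0) : ℝ≥0∞)) :=
    hFm.comp (hXm.comp measurable_fst)
  rw [h3, lintegral_prod _ hm.aemeasurable]
  simp only [lintegral_const, measure_univ, mul_one]

end Pool.Agent.T3H29.SS
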