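import Pool.Agent.T3H29.SS.Stm

/-! # NAT: self-similar measures without a common fixed point have no atoms -/

set_option autoImplicit false

namespace Pool.Agent.T3H29.SS

open MeasureTheory ProbabilityTheory Filter Topology Finset

namespace NATAux

variable {k : ℕ}

/-- stationarity for the mass of a point -/
theorem point_mass (I : Ifs k) (μ : Measure ℝ) [IsProbabilityMeasure μ] (hμ : Stationary I μ) (x : ℝ) :
    μ.real {x} = ∑ i, I.p i * μ.real {(x - I.τ i) / I.r i} := by
  have h1 : μ {x} = ∑ i, ENNReal.ofReal (I.p i) * μ {(x - I.τ i) / I.r i} := by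
    conv_lhs => rw [hμ]
    simp only [Measure.coe_finsetSum, Measure.coe_smul, Finset.sum_apply, Pi.smul_apply, smul_eq_mul]
    refine Finset.sum_congr rfl (fun i _ => ?_)
    congr 1
    rw [Measure.map_apply (by fun_prop) (measurableSet_singleton x)]
    congr 1
    ext y
    simp only [Set.mem_preimage, Set.mem_singleton_iff]
    have hr := I.r_ne i
    constructor
    · intro h
      rw [eq_div_iff hr]
      linarith
    · intro h
      rw [h]
      field_simp
      ring
  rw [Measure.real, h1, ENNReal.toReal_sum (fun i _ => ENNReal.mul_ne_top ENNReal.ofReal_ne_top (measure_ne_top _ _))]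
  refine Finset.sum_congr rfl (fun i _ => ?_)
  rw [ENNReal.toReal_mul, ENNReal.toReal_ofReal (I.p_pos i).le, Measure.real]

theorem finite_atoms (μ : Measure ℝ) [IsProbabilityMeasure μ] {c : ℝ} (hc : 0 < c) :
    {x : ℝ | c ≤ μ.real {x}}.Finite := by
  have h := Measure.finite_const_le_meas_of_disjoint_iUnion μ (ε := ENNReal.ofReal c)
    (ENNReal.ofReal_pos.mpr hc) (As := fun x : ℝ => ({x} : Set ℝ)) (fun x => measurableSet_singleton x)
    (fun x y hxy => by simpa [Function.onFun] using hxy) (measure_ne_top _ _)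
  refine h.subset (fun x hx => ?_)
  simp only [Set.mem_setOf_eq] at hx ⊢
  rw [ENNReal.ofReal_le_iff_le_toReal (measure_ne_top _ _)]
  exact hx

end NATAux

open NATAux in
theorem t_NAT : S_NAT := by
  intro k I μ hprob hμ hij x₀
  by_contra hx₀
  have hpos₀ : 0 < μ.real {x₀} := by
    rw [Measure.real]
    exact ENNReal.toReal_pos hx₀ (measure_ne_top _ _)
  -- the maximal mass
  have hfin := finite_atoms μ hpos₀
  obtain ⟨x₁, hx₁, hmax⟩ := Set.exists_max_image {x : ℝ | μ.real {x₀} ≤ μ.real {x}} (fun x => μ.real {x}) hfin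
    ⟨x₀, by simp only [Set.mem_setOf_eq]; exact le_refl (μ.real {x₀})⟩
  have hall : ∀ y, μ.real {y} ≤ μ.real {x₁} := by
    intro y
    by_cases hy : μ.real {x₀} ≤ μ.real {y}
    · exact hmax y hy
    · exact (not_le.mp hy).le.trans hx₁
  set a := μ.real {x₁} with ha
  -- the points of maximal mass
  have hAfin : {x : ℝ | μ.real {x} = a}.Finite :=
    hfin.subset (fun x hx => by
      simp only [Set.mem_setOf_eq] at hx ⊢
      rw [hx]
      exact hx₁)
  have hstep : ∀ x, μ.real {x} = a → ∀ i, μ.real {(x - I.τ i) / I.r i} = a := by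
    intro x hx i
    by_contra hne
    have hlt : μ.real {(x - I.τ i) / I.r i} < a := lt_of_le_of_ne (hall _) hne
    have h1 : μ.real {x} < ∑ j, I.p j * a := by
      rw [point_mass I μ hμ x]
      refine Finset.sum_lt_sum (fun j _ => mul_le_mul_of_nonneg_left (hall _) (I.p_pos j).le)
        ⟨i, Finset.mem_univ i, mul_lt_mul_of_pos_left hlt (I.p_pos i)⟩
    rw [← Finset.sum_mul, I.p_sum, one_mul, hx] at h1
    exact lt_irrefl _ h1
  obtain ⟨i, j, hij'⟩ := hij
  -- the set has only one point
  obtain ⟨⟨u, v⟩, ⟨hu, hv⟩, huv⟩ := Set.exists_max_image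
    ({x : ℝ | μ.real {x} = a} ×ˢ {x : ℝ | μ.real {x} = a}) (fun z : ℝ × ℝ => |z.1 - z.2|)
    (hAfin.prod hAfin) ⟨(x₁, x₁), rfl, rfl⟩
  simp only [Set.mem_setOf_eq] at hu hv
  have huv0 : |u - v| = 0 := by
    by_contra hne
    have hpos : 0 < |u - v| := lt_of_le_of_ne (abs_nonneg _) (Ne.symm hne)
    have h1 := huv ((u - I.τ i) / I.r i, (v - I.τ i) / I.r i) ⟨hstep u hu i, hstep v hv i⟩
    simp only at h1
    have h2 : (u - I.τ i) / I.r i - (v - I.τ i) / I.r i = (u - v) / I.r i := by
      rw [← sub_div]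
      congr 1
      ring
    rw [h2, abs_div, div_le_iff₀ (abs_pos.mpr (I.r_ne i))] at h1
    have h3 : |u - v| * |I.r i| < |u - v| := by
      calc |u - v| * |I.r i| < |u - v| * 1 := mul_lt_mul_of_pos_left (I.r_lt i) hpos
        _ = |u - v| := mul_one _
    linarith
  have hone : ∀ x y, μ.real {x} = a → μ.real {y} = a → x = y := by
    intro x y hx hy
    have h1 := huv (x, y) ⟨hx, hy⟩
    simp only at h1
    rw [huv0] at h1
    have h2 : |x - y| = 0 := le_antisymm h1 (abs_nonneg _)
    exact sub_eq_zero.mp (abs_eq_zero.mp h2)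
  have hfix : ∀ l, I.τ l / (1 - I.r l) = x₁ := by
    intro l
    have h1 := hone x₁ ((x₁ - I.τ l) / I.r l) rfl (hstep x₁ rfl l)
    rw [eq_div_iff (I.r_ne l)] at h1
    have h2 : (1 - I.r l) ≠ 0 := by
      have := (abs_lt.mp (I.r_lt l)).2
      intro h
      linarith
    rw [div_eq_iff h2]
    linarith
  exact hij' ((hfix i).trans (hfix j).symm)

end Pool.Agent.T3H29.SS
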