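import Pool.Agent.T3H29.SS.Stm

/-! # SMK: strong Markov property of the product measure -/

set_option autoImplicit false

namespace Pool.Agent.T3H29.SS

open MeasureTheory ProbabilityTheory Filter Topology Finset

namespace SMKAux

variable {k : ℕ}

theorem meas_spl_pair :
    Measurable (fun p : ((ℕ → Fin k) × (ℕ → Fin k)) × ℕ => spl p.2 p.1.1 p.1.2) := by
  refine measurable_from_prod_countable_left (fun n => ?_)
  refine measurable_pi_iff.mpr (fun i => ?_)
  unfold spl
  by_cases h : i < n
  · simp only [h, if_true]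
    exact (measurable_pi_apply i).comp measurable_fst
  · simp only [h, if_false]
    exact (measurable_pi_apply (i - n)).comp measurable_snd

theorem meas_spl (n : ℕ) :
    Measurable (fun z : (ℕ → Fin k) × (ℕ → Fin k) => spl n z.1 z.2) :=
  meas_spl_pair.comp (measurable_id.prodMk measurable_const)

theorem meas_splm {m : (ℕ → Fin k) → ℕ} (hm : Measurable m) :
    Measurable (fun z : (ℕ → Fin k) × (ℕ → Fin k) => spl (m z.1) z.1 z.2) :=
  meas_spl_pair.comp (measurable_id.prodMk (hm.comp measurable_fst))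

theorem m_spl_iff {m : (ℕ → Fin k) → ℕ}
    (hst : ∀ ω ω', (∀ i < m ω, ω i = ω' i) → m ω' = m ω) (n : ℕ) (ω η : ℕ → Fin k) :
    m (spl n ω η) = n ↔ m ω = n := by
  constructor
  · intro h
    have := hst (spl n ω η) ω (fun i hi => by
      rw [h] at hi
      simp [spl, hi])
    rw [this, h]
  · intro h
    have := hst ω (spl n ω η) (fun i hi => by
      rw [h] at hi
      simp [spl, hi])
    rw [this, h]

theorem map_eq (hspl : S_SPL) (I : Ifs k) {m : (ℕ → Fin k) → ℕ} (hm : Measurable m)
    (hst : ∀ ω ω', (∀ i < m ω, ω i = ω' i) → m ω' = m ω) :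
    ((PP I).prod (PP I)).map (fun z => spl (m z.1) z.1 z.2) = PP I := by
  ext s hs
  rw [Measure.map_apply (meas_splm hm) hs]
  have hE : ∀ n : ℕ, MeasurableSet {z : (ℕ → Fin k) × (ℕ → Fin k) | m z.1 = n} := fun n =>
    (hm.comp measurable_fst) (measurableSet_singleton n)
  have hF : ∀ n : ℕ, MeasurableSet {ω : ℕ → Fin k | m ω = n} := fun n =>
    hm (measurableSet_singleton n)
  have h1 : ((PP I).prod (PP I)) ((fun z => spl (m z.1) z.1 z.2) ⁻¹' s)
      = ∑' n : ℕ, ((PP I).prod (PP I)) (((fun z => spl (m z.1) z.1 z.2) ⁻¹' s) ∩ {z | m z.1 = n}) := by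
    rw [← measure_iUnion]
    · congr 1
      ext z
      simp
    · intro i j hij
      simp only [Function.onFun]
      rw [Set.disjoint_left]
      rintro z ⟨-, hz⟩ ⟨-, hz'⟩
      exact hij (hz.symm.trans hz')
    · intro n
      exact ((meas_splm hm) hs).inter (hE n)
  have h2 : (PP I) s = ∑' n : ℕ, (PP I) (s ∩ {ω | m ω = n}) := by
    rw [← measure_iUnion]
    · congr 1
      ext z
      simp
    · intro i j hij
      simp only [Function.onFun]
      rw [Set.disjoint_left]
      rintro z ⟨-, hz⟩ ⟨-, hz'⟩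
      exact hij (hz.symm.trans hz')
    · intro n
      exact hs.inter (hF n)
  rw [h1, h2]
  refine tsum_congr (fun n => ?_)
  conv_rhs => rw [← hspl k I n]
  rw [Measure.map_apply (meas_spl n) (hs.inter (hF n))]
  congr 1
  ext z
  simp only [Set.mem_inter_iff, Set.mem_preimage, Set.mem_setOf_eq, m_spl_iff hst n z.1 z.2]
  constructor
  · rintro ⟨h, h'⟩
    rw [h'] at h
    exact ⟨h, h'⟩
  · rintro ⟨h, h'⟩
    rw [h']
    exact ⟨h, rfl⟩

end SMKAux

open SMKAux in
theorem t_SMK : S_SMK := by
  intro hspl k I m hm hst F C hF hC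
  have hmap := map_eq hspl I hm hst
  conv_lhs => rw [← hmap]
  rw [integral_map (meas_splm hm).aemeasurable hF.aestronglyMeasurable]
  have hint : Integrable (fun z : (ℕ → Fin k) × (ℕ → Fin k) => F (spl (m z.1) z.1 z.2))
      ((PP I).prod (PP I)) := by
    refine Integrable.of_bound (C := C) (hF.comp (meas_splm hm)).aestronglyMeasurable ?_
    exact Filter.Eventually.of_forall (fun z => hC _)
  exact integral_prod _ hint

end Pool.Agent.T3H29.SS
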