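import Pool.Agent.T3H29.SS.Stm

/-!
# SPL: the splitting of the product measure
-/

set_option autoImplicit false

namespace Pool.Agent.T3H29.SS

open MeasureTheory ProbabilityTheory Filter Topology Finset

namespace SPL

theorem measurable_spl {k : ℕ} (n : ℕ) :
    Measurable (fun z : (ℕ → Fin k) × (ℕ → Fin k) => spl n z.1 z.2) := by
  refine measurable_pi_iff.2 fun i => ?_
  unfold spl
  by_cases h : i < n
  · simp only [h, if_true]
    exact (measurable_pi_apply i).comp measurable_fst
  · simp only [h, if_false]
    exact (measurable_pi_apply (i - n)).comp measurable_snd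

end SPL

open SPL

theorem t_SPL : S_SPL := by
  intro k I n
  unfold PP
  refine Measure.eq_infinitePi _ ?_
  intro s t ht
  have hms : MeasurableSet (Set.pi (↑s) t) := MeasurableSet.pi s.countable_toSet fun i _ => ht i
  rw [Measure.map_apply (measurable_spl n) hms]
  have hpre : (fun z : (ℕ → Fin k) × (ℕ → Fin k) => spl n z.1 z.2) ⁻¹' (Set.pi (↑s) t) =
      (Set.pi (↑(s.filter (fun i => i < n))) t) ×ˢ
        (Set.pi (↑((s.filter (fun i => ¬ i < n)).image (fun i => i - n))) (fun j => t (j + n))) := by
    ext ⟨ω, η⟩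
    simp only [Set.mem_preimage, Set.mem_pi, Set.mem_prod, Finset.coe_filter, Finset.coe_image, Set.mem_ofPred_eq,
      Set.mem_image, Finset.mem_coe]
    constructor
    · intro h
      refine ⟨fun i hi => ?_, ?_⟩
      · have := h i hi.1
        unfold spl at this
        rwa [if_pos hi.2] at this
      · rintro j ⟨i, ⟨hi1, hi2⟩, rfl⟩
        have := h i hi1
        unfold spl at this
        rw [if_neg hi2] at this
        rwa [Nat.sub_add_cancel (not_lt.1 hi2)]
    · rintro ⟨h1, h2⟩ i hi
      unfold spl
      by_cases h : i < n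
      · rw [if_pos h]
        exact h1 i ⟨hi, h⟩
      · rw [if_neg h]
        have := h2 (i - n) ⟨i, ⟨hi, h⟩, rfl⟩
        rwa [Nat.sub_add_cancel (not_lt.1 h)] at this
  rw [hpre, Measure.prod_prod, Measure.infinitePi_pi _ (fun i _ => ht i),
    Measure.infinitePi_pi _ (fun i _ => ht (i + n)), Finset.prod_image]
  · rw [← Finset.prod_filter_mul_prod_filter_not s (fun i => i < n)]
    congr 1
    refine Finset.prod_congr rfl fun i hi => ?_
    rw [Nat.sub_add_cancel (not_lt.1 (Finset.mem_filter.1 hi).2)]
  · intro i hi j hj hij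
    have h1 : ¬ i < n := (Finset.mem_filter.1 (Finset.mem_coe.1 hi)).2
    have h2 : ¬ j < n := (Finset.mem_filter.1 (Finset.mem_coe.1 hj)).2
    have h3 : i - n = j - n := hij
    omega

end Pool.Agent.T3H29.SS
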