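import Pool.Agent.T3H29.SS.Stm

/-! STP: the stopping index -/

set_option autoImplicit false

namespace Pool.Agent.T3H29.SS

open MeasureTheory ProbabilityTheory Filter Topology Finset

variable {k : ℕ} (I : Ifs k)

theorem STP_max : ∃ q : ℝ, 0 < q ∧ q < 1 ∧ ∀ i, |I.r i| ≤ q := by
  rcases Nat.eq_zero_or_pos k with h0 | hk
  · subst h0
    have := I.p_sum
    simp at this
  · haveI : Nonempty (Fin k) := ⟨⟨0, hk⟩⟩
    obtain ⟨j, hj⟩ := Finite.exists_max (fun i => |I.r i|)
    exact ⟨|I.r j|, abs_pos.2 (I.r_ne j), I.r_lt j, hj⟩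

theorem STP_R_le {q : ℝ} (hq : ∀ i, |I.r i| ≤ q) (ω : ℕ → Fin k) (n : ℕ) : |R I ω n| ≤ q ^ n := by
  unfold R
  rw [Finset.abs_prod]
  refine (Finset.prod_le_prod (fun i _ => abs_nonneg _) (fun i _ => hq (ω i))).trans ?_
  simp

theorem STP_R_succ (ω : ℕ → Fin k) (n : ℕ) : R I ω (n + 1) = R I ω n * I.r (ω n) := by
  unfold R
  rw [Finset.prod_range_succ]

theorem STP_nonempty {T : ℝ} (hT : 0 < T) (ω : ℕ → Fin k) : {m : ℕ | |R I ω m| * T ≤ 1}.Nonempty := by
  obtain ⟨q, hq0, hq1, hq⟩ := STP_max I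
  obtain ⟨n, hn⟩ := exists_pow_lt_of_lt_one (show (0 : ℝ) < 1 / T by positivity) hq1
  refine ⟨n, ?_⟩
  have h1 : |R I ω n| * T ≤ (1 / T) * T :=
    mul_le_mul_of_nonneg_right ((STP_R_le I hq ω n).trans hn.le) hT.le
  rwa [one_div_mul_cancel hT.ne'] at h1

theorem STP_mem {T : ℝ} (hT : 0 < T) (ω : ℕ → Fin k) : |R I ω (st I T ω)| * T ≤ 1 :=
  Nat.sInf_mem (STP_nonempty I hT ω)

theorem STP_lt {T : ℝ} {ω : ℕ → Fin k} {m : ℕ} (hm : m < st I T ω) : 1 < |R I ω m| * T := by
  by_contra h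
  exact absurd (Nat.sInf_le (s := {m : ℕ | |R I ω m| * T ≤ 1}) (not_lt.1 h)) (not_le.2 hm)

theorem STP_iff {T : ℝ} (hT : 0 < T) (ω : ℕ → Fin k) (n : ℕ) :
    st I T ω = n ↔ |R I ω n| * T ≤ 1 ∧ ∀ m < n, 1 < |R I ω m| * T := by
  constructor
  · rintro rfl
    exact ⟨STP_mem I hT ω, fun m hm => STP_lt I hm⟩
  · rintro ⟨h1, h2⟩
    have h3 : st I T ω ≤ n := Nat.sInf_le (s := {m : ℕ | |R I ω m| * T ≤ 1}) h1
    rcases Nat.lt_or_eq_of_le h3 with h | h
    · exact absurd (STP_mem I hT ω) (not_le.2 (h2 _ h))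
    · exact h

theorem STP_R_meas (n : ℕ) : Measurable (fun ω : ℕ → Fin k => R I ω n) := by
  unfold R
  exact Finset.measurable_prod _ fun i _ => (Measurable.of_discrete (f := I.r)).comp (measurable_pi_apply i)

theorem STP_R_congr {ω ω' : ℕ → Fin k} {n : ℕ} (h : ∀ i < n, ω i = ω' i) : R I ω n = R I ω' n := by
  unfold R
  exact Finset.prod_congr rfl fun i hi => by rw [h i (Finset.mem_range.1 hi)]

theorem STP_meas {T : ℝ} (hT : 0 < T) : Measurable (st I T) := by
  refine measurable_to_countable' fun n => ?_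
  have h : st I T ⁻¹' {n} = {ω | |R I ω n| * T ≤ 1} ∩ ⋂ m : ℕ, ⋂ _ : m < n, {ω | 1 < |R I ω m| * T} := by
    ext ω
    simp only [Set.mem_preimage, Set.mem_singleton_iff, Set.mem_inter_iff, Set.mem_setOf_eq, Set.mem_iInter]
    exact STP_iff I hT ω n
  rw [h]
  have hm : ∀ m : ℕ, Measurable (fun ω : ℕ → Fin k => |R I ω m| * T) := fun m =>
    ((STP_R_meas I m).abs).mul_const T
  exact (measurableSet_le (hm n) measurable_const).inter
    (MeasurableSet.iInter fun m => MeasurableSet.iInter fun _ => measurableSet_lt measurable_const (hm m))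

theorem t_STP : S_STP := by
  intro k I
  refine ⟨fun T hT ω => STP_mem I hT ω, ?_, fun T hT => STP_meas I hT, ?_, ?_, ?_⟩
  · intro c hc hc0 T hT ω
    rcases Nat.eq_zero_or_pos (st I T ω) with h0 | h0
    · have h1 := STP_mem I (by linarith : 0 < T) ω
      rw [h0] at h1
      unfold R at h1
      simp at h1
      linarith
    · obtain ⟨m, hm⟩ : ∃ m, st I T ω = m + 1 := ⟨st I T ω - 1, by omega⟩
      have h1 : 1 < |R I ω m| * T := STP_lt I (by omega)
      rw [hm, STP_R_succ, abs_mul]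
      calc c < c * (|R I ω m| * T) := by nlinarith
        _ ≤ |I.r (ω m)| * (|R I ω m| * T) := mul_le_mul_of_nonneg_right (hc _) (by linarith)
        _ = |R I ω m| * |I.r (ω m)| * T := by ring
  · intro T hT ω ω' h
    rw [STP_iff I hT]
    refine ⟨?_, fun m hm => ?_⟩
    · rw [← STP_R_congr I h]
      exact STP_mem I hT ω
    · rw [← STP_R_congr I (fun i hi => h i (by omega))]
      exact STP_lt I hm
  · intro T T' hT hTT ω
    refine Nat.sInf_le ?_
    have h1 := STP_mem I (hT.trans_le hTT) ω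
    exact (mul_le_mul_of_nonneg_left hTT (abs_nonneg _)).trans h1
  · obtain ⟨q, hq0, hq1, hq⟩ := STP_max I
    have hL : 0 < Real.log (1 / q) := Real.log_pos (by rw [lt_div_iff₀ hq0]; linarith)
    refine ⟨1 / Real.log (1 / q) + 1, by positivity, fun T hT ω => ?_⟩
    have hlT : 0 ≤ Real.log T := Real.log_nonneg hT
    set m : ℕ := ⌈Real.log T / Real.log (1 / q)⌉₊ with hm
    have h1 : Real.log T / Real.log (1 / q) ≤ m := Nat.le_ceil _
    have h2 : (m : ℝ) < Real.log T / Real.log (1 / q) + 1 := Nat.ceil_lt_add_one (by positivity)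
    have h3 : st I T ω ≤ m := by
      refine Nat.sInf_le ?_
      have h4 : |R I ω m| * T ≤ q ^ m * T := mul_le_mul_of_nonneg_right (STP_R_le I hq ω m) (by linarith)
      refine h4.trans ?_
      rw [div_le_iff₀ hL] at h1
      have h5 : T ≤ (1 / q) ^ m := by
        rw [← Real.log_le_log_iff (by linarith) (by positivity), Real.log_pow]
        exact h1
      rw [one_div, inv_pow] at h5
      calc q ^ m * T ≤ q ^ m * (q ^ m)⁻¹ := mul_le_mul_of_nonneg_left h5 (by positivity)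
        _ = 1 := mul_inv_cancel₀ (by positivity)
    have h6 : (st I T ω : ℝ) ≤ m := by exact_mod_cast h3
    have h7 : Real.log T / Real.log (1 / q) = 1 / Real.log (1 / q) * Real.log T := by ring
    have h8 : 0 ≤ 1 / Real.log (1 / q) := by positivity
    nlinarith

end Pool.Agent.T3H29.SS
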