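import Pool.Agent.T3H29.SS.Stm
import Pool.Agent.T3H29.HR.LL1

/-! SS: the random walk `log |R_m|` modulo `θ`. -/

set_option autoImplicit false

namespace Pool.Agent.T3H29.SS

open MeasureTheory ProbabilityTheory Filter Topology Finset
open Pool.Agent.T3H29.HR (e)

namespace WEY

theorem e_add (x y : ℝ) : e (x + y) = e x * e y := by
  unfold HR.e
  rw [← Complex.exp_add]
  congr 1
  push_cast
  ring

theorem e_zero : e 0 = 1 := by
  unfold HR.e
  simp

theorem norm_e (x : ℝ) : ‖e x‖ = 1 := by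
  unfold HR.e
  exact Complex.norm_exp_ofReal_mul_I _

theorem e_mul_conj (x : ℝ) : e x * (starRingEnd ℂ) (e x) = 1 := by
  rw [Complex.mul_conj, Complex.normSq_eq_norm_sq, norm_e]
  simp

variable {k : ℕ} (I : Ifs k)

theorem prod_int (n : ℕ) (g : ℕ → Fin k → ℂ) :
    ∫ ω, ∏ i ∈ range n, g i (ω i) ∂(PP I) = ∏ i ∈ range n, ∫ a, g i a ∂(wt I) := by
  have h1 : ∀ ω : ℕ → Fin k, ∏ i ∈ range n, g i (ω i) =
      (fun z : (range n) → Fin k => ∏ i : range n, g i (z i)) ((range n).restrict ω) := by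
    intro ω
    simp only [Finset.restrict]
    rw [Finset.prod_coe_sort (range n) (fun i => g i (ω i))]
  simp_rw [h1]
  unfold PP
  have hmeas : Measurable (fun z : (range n) → Fin k => ∏ i : range n, g i (z i)) :=
    Finset.measurable_fun_prod _ fun i _ => (measurable_of_finite (g i)).comp (measurable_pi_apply i)
  rw [← integral_map (φ := (range n).restrict (π := fun _ : ℕ => Fin k))
    (Finset.measurable_restrict _).aemeasurable hmeas.aestronglyMeasurable,
    Measure.infinitePi_map_restrict]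
  rw [integral_fintype_prod_eq_prod (E := fun _ : range n => Fin k) (fun i : range n => g i)]
  exact Finset.prod_coe_sort (range n) (fun i => ∫ a, g i a ∂(wt I))

/-- the phases -/
noncomputable def y (θ : ℝ) (l : ℤ) (i : Fin k) : ℂ := e (l * Real.log |I.r i| / θ)

/-- the mean of the phases -/
noncomputable def w (θ : ℝ) (l : ℤ) : ℂ := ∫ a, y I θ l a ∂(wt I)

theorem w_eq (θ : ℝ) (l : ℤ) : w I θ l = ∑ i, (I.p i : ℂ) * y I θ l i := by
  unfold w wt
  have hint : ∀ i ∈ (Finset.univ : Finset (Fin k)),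
      Integrable (y I θ l) (ENNReal.ofReal (I.p i) • Measure.dirac i) := fun i _ =>
    (Integrable.of_finite (μ := Measure.dirac i)).smul_measure ENNReal.ofReal_ne_top
  rw [integral_finsetSum_measure hint]
  refine Finset.sum_congr rfl fun i _ => ?_
  rw [integral_smul_measure, integral_dirac, ENNReal.toReal_ofReal (I.p_pos i).le]
  exact Complex.real_smul

theorem norm_w (θ : ℝ) (l : ℤ) : ‖w I θ l‖ ≤ 1 := by
  rw [w_eq]
  refine (norm_sum_le _ _).trans ?_
  rw [← I.p_sum]
  refine Finset.sum_le_sum fun i _ => ?_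
  rw [norm_mul, y, norm_e, mul_one, Complex.norm_real, Real.norm_eq_abs, abs_of_pos (I.p_pos i)]

theorem e_eq_one {x : ℝ} (h : e x = 1) : ∃ n : ℤ, x = n := by
  unfold HR.e at h
  rw [Complex.exp_eq_one_iff] at h
  obtain ⟨n, hn⟩ := h
  refine ⟨n, ?_⟩
  have h1 : ((2 * Real.pi * x : ℝ) : ℂ) = ((2 * Real.pi * n : ℝ) : ℂ) := by
    have h2 : ((2 * Real.pi * x : ℝ) : ℂ) * Complex.I = ((2 * Real.pi * n : ℝ) : ℂ) * Complex.I := by
      rw [hn]
      push_cast
      ring
    exact mul_right_cancel₀ Complex.I_ne_zero h2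
  have h3 : 2 * Real.pi * x = 2 * Real.pi * n := by exact_mod_cast h1
  exact mul_left_cancel₀ (by positivity) h3

theorem w_ne_one {θ : ℝ} (_hθ : 0 < θ) (hirr : ∃ i, Irrational (Real.log |I.r i| / θ)) {l : ℤ}
    (hl : l ≠ 0) : w I θ l ≠ 1 := by
  intro h
  have hre : ∀ i, (y I θ l i).re ≤ 1 := fun i => by
    have h1 := Complex.re_le_norm (y I θ l i)
    rwa [y, norm_e] at h1
  have h2 : ∑ i, I.p i * (1 - (y I θ l i).re) = 0 := by
    have h3 := congrArg Complex.re h
    rw [w_eq, Complex.re_sum, Complex.one_re] at h3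
    have h4 : ∑ i, I.p i * (y I θ l i).re = 1 := by
      rw [← h3]
      refine Finset.sum_congr rfl fun i _ => ?_
      rw [Complex.re_ofReal_mul]
    have h5 : ∑ i, I.p i * (1 - (y I θ l i).re) = ∑ i, I.p i - ∑ i, I.p i * (y I θ l i).re := by
      rw [← Finset.sum_sub_distrib]
      exact Finset.sum_congr rfl fun i _ => by ring
    rw [h5, h4, I.p_sum, sub_self]
  have h3 := (Finset.sum_eq_zero_iff_of_nonneg fun i _ =>
    mul_nonneg (I.p_pos i).le (sub_nonneg.2 (hre i))).1 h2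
  obtain ⟨i, hi⟩ := hirr
  have h4 := h3 i (Finset.mem_univ i)
  have h5 : (y I θ l i).re = 1 := by
    rcases mul_eq_zero.1 h4 with h6 | h6
    · exact absurd h6 (I.p_pos i).ne'
    · linarith
  have h6 : y I θ l i = 1 := by
    have h7 : Complex.normSq (y I θ l i) = 1 := by
      rw [Complex.normSq_eq_norm_sq, y, norm_e]
      norm_num
    rw [Complex.normSq_apply, h5] at h7
    have h8 : (y I θ l i).im = 0 := by
      have : (y I θ l i).im * (y I θ l i).im = 0 := by linarith
      exact mul_self_eq_zero.1 this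
    exact Complex.ext h5 h8
  obtain ⟨n, hn⟩ := e_eq_one h6
  apply hi
  refine ⟨(n : ℚ) / (l : ℚ), ?_⟩
  have hl' : (l : ℝ) ≠ 0 := by exact_mod_cast hl
  push_cast
  rw [div_eq_iff hl', ← hn]
  ring

theorem u_prod (θ : ℝ) (l : ℤ) (ω : ℕ → Fin k) (m : ℕ) :
    e (l * Real.log |R I ω m| / θ) = ∏ i ∈ range m, y I θ l (ω i) := by
  have hR : ∀ m, R I ω m ≠ 0 := fun m => Finset.prod_ne_zero_iff.2 fun i _ => I.r_ne _
  induction m with
  | zero =>
    have : R I ω 0 = 1 := by unfold R; simp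
    rw [this, abs_one, Real.log_one, mul_zero, zero_div, e_zero]
    simp
  | succ m ih =>
    have h1 : R I ω (m + 1) = R I ω m * I.r (ω m) := by
      unfold R
      exact Finset.prod_range_succ _ _
    rw [h1, abs_mul, Real.log_mul (abs_ne_zero.2 (hR m)) (abs_ne_zero.2 (I.r_ne _)), mul_add, add_div,
      e_add, ih, Finset.prod_range_succ]
    rfl

/-- the product -/
noncomputable def u (θ : ℝ) (l : ℤ) (m : ℕ) (ω : ℕ → Fin k) : ℂ := ∏ i ∈ range m, y I θ l (ω i)

/-- the differences -/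
noncomputable def D (θ : ℝ) (l : ℤ) (m : ℕ) (ω : ℕ → Fin k) : ℂ :=
  u I θ l m ω * (y I θ l (ω m) - w I θ l)

theorem norm_u (θ : ℝ) (l : ℤ) (m : ℕ) (ω : ℕ → Fin k) : ‖u I θ l m ω‖ = 1 := by
  unfold u
  rw [norm_prod]
  exact Finset.prod_eq_one fun i _ => norm_e _

theorem norm_D (θ : ℝ) (l : ℤ) (m : ℕ) (ω : ℕ → Fin k) : ‖D I θ l m ω‖ ≤ 2 := by
  unfold D
  rw [norm_mul, norm_u, one_mul]
  refine (norm_sub_le _ _).trans ?_
  have h1 := norm_w I θ l
  rw [y, norm_e]
  linarith

theorem meas_u (θ : ℝ) (l : ℤ) (m : ℕ) : Measurable (u I θ l m) := by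
  unfold u
  exact Finset.measurable_fun_prod _ fun i _ =>
    (measurable_of_finite (y I θ l)).comp (measurable_pi_apply i)

theorem meas_D (θ : ℝ) (l : ℤ) (m : ℕ) : Measurable (D I θ l m) := by
  unfold D
  exact (meas_u I θ l m).mul
    (((measurable_of_finite (y I θ l)).comp (measurable_pi_apply m)).sub_const _)

/-- the factors of the product of two differences -/
noncomputable def fac (θ : ℝ) (l : ℤ) (m n : ℕ) (i : ℕ) (a : Fin k) : ℂ :=
  (if i < m then y I θ l a else if i = m then y I θ l a - w I θ l else 1) *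
    (starRingEnd ℂ) (if i < n then y I θ l a else if i = n then y I θ l a - w I θ l else 1)

theorem D_prod (θ : ℝ) (l : ℤ) {m n : ℕ} (hmn : m ≤ n) (ω : ℕ → Fin k) :
    D I θ l m ω = ∏ i ∈ range (n + 1), (if i < m then y I θ l (ω i) else
      if i = m then y I θ l (ω i) - w I θ l else 1) := by
  have h1 : ∏ i ∈ range (n + 1), (if i < m then y I θ l (ω i) else
      if i = m then y I θ l (ω i) - w I θ l else 1) =
      ∏ i ∈ range (m + 1), (if i < m then y I θ l (ω i) else
      if i = m then y I θ l (ω i) - w I θ l else 1) := by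
    symm
    refine Finset.prod_subset (fun i hi => ?_) fun i _ hi => ?_
    · rw [mem_range] at hi ⊢
      omega
    · rw [mem_range] at hi
      rw [if_neg (by omega), if_neg (by omega)]
  rw [h1, Finset.prod_range_succ, if_neg (lt_irrefl m), if_pos rfl]
  unfold D u
  congr 1
  refine Finset.prod_congr rfl fun i hi => ?_
  rw [if_pos (mem_range.1 hi)]

theorem ortho (θ : ℝ) (l : ℤ) {m n : ℕ} (hmn : m < n) :
    ∫ ω, D I θ l m ω * (starRingEnd ℂ) (D I θ l n ω) ∂(PP I) = 0 := by
  have h1 : ∀ ω : ℕ → Fin k, D I θ l m ω * (starRingEnd ℂ) (D I θ l n ω) =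
      ∏ i ∈ range (n + 1), fac I θ l m n i (ω i) := by
    intro ω
    rw [D_prod I θ l hmn.le ω, D_prod I θ l (le_refl n) ω, map_prod, ← Finset.prod_mul_distrib]
    rfl
  simp_rw [h1]
  rw [prod_int]
  refine Finset.prod_eq_zero (mem_range.2 (Nat.lt_succ_self n)) ?_
  have h2 : ∀ a, fac I θ l m n n a = (starRingEnd ℂ) (y I θ l a - w I θ l) := by
    intro a
    unfold fac
    rw [if_neg (by omega), if_neg (by omega), if_neg (lt_irrefl n), if_pos rfl, one_mul]
  simp_rw [h2]
  rw [integral_conj, integral_sub Integrable.of_finite (integrable_const _), integral_const]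
  simp only [probReal_univ, one_smul]
  rw [show ∫ a, y I θ l a ∂(wt I) = w I θ l from rfl, sub_self, map_zero]

theorem sum_D (θ : ℝ) (l : ℤ) (ω : ℕ → Fin k) (M : ℕ) :
    ∑ m ∈ range M, D I θ l m ω = (1 - w I θ l) * ∑ m ∈ range M, u I θ l m ω +
      (u I θ l M ω - 1) := by
  induction M with
  | zero =>
    have : u I θ l 0 ω = 1 := by unfold u; simp
    simp [this]
  | succ M ih =>
    rw [Finset.sum_range_succ, Finset.sum_range_succ, ih]
    have h1 : u I θ l (M + 1) ω = u I θ l M ω * y I θ l (ω M) := by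
      unfold u
      exact Finset.prod_range_succ _ _
    rw [h1]
    unfold D
    ring

end WEY

open WEY in
theorem t_WEY : S_WEY := by
  intro k I θ hθ hirr
  have key : ∀ l : ℤ, ∀ᵐ ω ∂(PP I), ∀ ε : ℝ, 0 < ε → ∀ᶠ N : ℕ in atTop,
      ‖∑ n ∈ range N, D I θ l n ω‖ ≤ ε * N := by
    intro l
    have h2 := HR.second_moment (PP I) (fun n => D I θ l n) (fun n => meas_D I θ l n)
      (fun n ω => norm_D I θ l n ω) 0 0 le_rfl le_rfl zero_lt_one
      (fun m n hmn => by rw [ortho I θ l hmn, norm_zero, zero_mul])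
    exact HR.as_of_second (PP I) (fun n => D I θ l n) (fun n => meas_D I θ l n)
      (fun n ω => norm_D I θ l n ω) (4 + 2 * 0 / (1 - 0)) (by norm_num) h2
  have key2 := ae_all_iff.2 key
  filter_upwards [key2] with ω hω l hl
  have hw : 1 - w I θ l ≠ 0 := sub_ne_zero.2 (w_ne_one I hθ hirr hl).symm
  have hw0 : 0 < ‖1 - w I θ l‖ := norm_pos_iff.2 hw
  simp_rw [u_prod I θ l ω]
  have hD : Tendsto (fun M : ℕ => ‖∑ n ∈ range M, D I θ l n ω‖ / M) atTop (𝓝 0) := by
    rw [Metric.tendsto_nhds]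
    intro ε hε
    filter_upwards [hω l (ε / 2) (half_pos hε), eventually_gt_atTop 0] with M hM hM0
    have hM0' : (0 : ℝ) < M := by exact_mod_cast hM0
    rw [Real.dist_eq, sub_zero, abs_of_nonneg (by positivity), div_lt_iff₀ hM0']
    have : ε / 2 * (M : ℝ) < ε * M := mul_lt_mul_of_pos_right (by linarith) hM0'
    linarith
  have h2 : Tendsto (fun M : ℕ => (2 : ℝ) / M) atTop (𝓝 0) := tendsto_const_div_atTop_nhds_zero_nat 2
  have h3 : Tendsto (fun M : ℕ => (‖∑ n ∈ range M, D I θ l n ω‖ / M + 2 / M) / ‖1 - w I θ l‖)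
      atTop (𝓝 0) := by
    have := (hD.add h2).div_const ‖1 - w I θ l‖
    rwa [add_zero, zero_div] at this
  refine squeeze_zero (fun M => by positivity) (fun M => ?_) h3
  rw [le_div_iff₀ hw0, ← add_div, div_mul_eq_mul_div]
  refine div_le_div_of_nonneg_right ?_ (Nat.cast_nonneg M)
  have h4 : (1 - w I θ l) * ∑ m ∈ range M, u I θ l m ω =
      ∑ m ∈ range M, D I θ l m ω - (u I θ l M ω - 1) := by
    rw [sum_D I θ l ω M]
    ring
  have h5 : ‖∑ m ∈ range M, ∏ i ∈ range m, y I θ l (ω i)‖ * ‖1 - w I θ l‖ =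
      ‖∑ m ∈ range M, D I θ l m ω - (u I θ l M ω - 1)‖ := by
    rw [← h4, norm_mul, mul_comm]
    rfl
  rw [h5]
  refine (norm_sub_le _ _).trans ?_
  have h6 : ‖u I θ l M ω - 1‖ ≤ 2 := by
    refine (norm_sub_le _ _).trans ?_
    rw [norm_u, norm_one]
    norm_num
  linarith

end Pool.Agent.T3H29.SS
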