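import Pool.Agent.T3H29.SS.Stm
import Pool.Agent.T3H29.HR.T_WIE

/-! Task WIE of project SS. -/

set_option autoImplicit false

namespace Pool.Agent.T3H29.SS

open MeasureTheory Filter Topology
open Pool.Agent.T3H29.HR (e)
open Pool.Agent.T3H29.HR.WieAux (norm_e continuous_e)

namespace Wie

/-- the oscillating integral -/
lemma osc (A B : ℝ) (hAB : A ≤ B) (c : ℝ) (hc : c ≠ 0) :
    ‖∫ u in A..B, Complex.exp (((c * Real.exp u : ℝ) : ℂ) * Complex.I)‖ ≤
      (2 + (B - A)) * Real.exp (-A) / |c| := by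
  set G : ℝ → ℂ := fun u => Complex.exp (((c * Real.exp u : ℝ) : ℂ) * Complex.I) with hG
  set P : ℝ → ℂ := fun u => ((Real.exp (-u) : ℝ) : ℂ) * G u / (Complex.I * c) with hP
  have hcC : (c : ℂ) ≠ 0 := by exact_mod_cast hc
  have hcont : Continuous G := by
    rw [hG]; fun_prop
  have hcontP : Continuous P := by
    rw [hP]; fun_prop
  have hder : ∀ u : ℝ, HasDerivAt P (G u - P u) u := by
    intro u
    have h1 : HasDerivAt (fun u : ℝ => Real.exp (-u)) (Real.exp (-u) * (-1)) u :=
      ((hasDerivAt_id u).neg).exp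
    have h2 : HasDerivAt (fun u : ℝ => c * Real.exp u) (c * Real.exp u) u :=
      (Real.hasDerivAt_exp u).const_mul c
    have h3 := ((h2.ofReal_comp).mul_const Complex.I).cexp
    have h4 := (h1.ofReal_comp.mul h3).div_const (Complex.I * c)
    refine h4.congr_deriv ?_
    have hGu : G u = Complex.exp (((c * Real.exp u : ℝ) : ℂ) * Complex.I) := rfl
    simp only [hP]
    rw [← hGu]
    have hexp : ((Real.exp (-u) : ℝ) : ℂ) * ((Real.exp u : ℝ) : ℂ) = 1 := by
      rw [← Complex.ofReal_mul, ← Real.exp_add]; simp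
    push_cast at hexp ⊢
    field_simp
    linear_combination (c * G u * Complex.I) * hexp
  have hint : ∫ u in A..B, (G u - P u) = P B - P A :=
    intervalIntegral.integral_eq_sub_of_hasDerivAt (fun u _ => hder u)
      ((hcont.sub hcontP).intervalIntegrable _ _)
  have hsplit : ∫ u in A..B, G u = P B - P A + ∫ u in A..B, P u := by
    have h0 : ∫ u in A..B, (G u - P u) =
        (∫ u in A..B, G u) - ∫ u in A..B, P u :=
      intervalIntegral.integral_sub (f := G) (g := P)
        (hcont.intervalIntegrable _ _) (hcontP.intervalIntegrable _ _)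
    rw [← hint, h0]
    ring
  have hGn : ∀ u, ‖G u‖ = 1 := fun u => Complex.norm_exp_ofReal_mul_I _
  have hPn : ∀ u, A ≤ u → ‖P u‖ ≤ Real.exp (-A) / |c| := by
    intro u hu
    simp only [hP]
    rw [norm_div, norm_mul, hGn, mul_one, norm_mul, Complex.norm_I, one_mul,
      Complex.norm_real, Complex.norm_real, Real.norm_eq_abs, Real.norm_eq_abs,
      abs_of_pos (Real.exp_pos _)]
    gcongr
  have hIP : ‖∫ u in A..B, P u‖ ≤ Real.exp (-A) / |c| * (B - A) := by
    have := intervalIntegral.norm_integral_le_of_norm_le_const (a := A) (b := B) (f := P)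
      (C := Real.exp (-A) / |c|) (fun u hu => hPn u (by
        rw [Set.uIoc_of_le hAB] at hu
        exact hu.1.le))
    rwa [abs_of_nonneg (sub_nonneg.2 hAB)] at this
  rw [hsplit]
  calc ‖P B - P A + ∫ u in A..B, P u‖ ≤ ‖P B‖ + ‖P A‖ + ‖∫ u in A..B, P u‖ := by
        refine (norm_add_le _ _).trans ?_
        gcongr
        exact norm_sub_le _ _
    _ ≤ Real.exp (-A) / |c| + Real.exp (-A) / |c| + Real.exp (-A) / |c| * (B - A) := by
        gcongr
        · exact hPn B hAB
        · exact hPn A le_rfl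
    _ = (2 + (B - A)) * Real.exp (-A) / |c| := by ring

/-- the kernel -/
noncomputable def hh (A B L : ℝ) (x : ℝ) : ℂ := ∫ v in A..B, e (L * Real.exp v * x)

lemma norm_hh_le (A B L : ℝ) (hAB : A ≤ B) (x : ℝ) : ‖hh A B L x‖ ≤ B - A := by
  have := intervalIntegral.norm_integral_le_of_norm_le_const (a := A) (b := B)
    (f := fun v => e (L * Real.exp v * x)) (C := 1) (fun v _ => (norm_e _).le)
  rwa [abs_of_nonneg (sub_nonneg.2 hAB), one_mul] at this

lemma hh_eq (A B L x : ℝ) : hh A B L x = ∫ u in A..B,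
    Complex.exp (((2 * Real.pi * L * x * Real.exp u : ℝ) : ℂ) * Complex.I) := by
  unfold hh
  refine intervalIntegral.integral_congr fun u _ => ?_
  simp only [e]
  congr 2
  push_cast
  ring

lemma tendsto_hh (A B : ℝ) (hAB : A ≤ B) (x : ℝ) (hx : x ≠ 0) :
    Tendsto (fun L : ℝ => hh A B L x) atTop (𝓝 0) := by
  rw [tendsto_zero_iff_norm_tendsto_zero]
  have h1 : ∀ᶠ L : ℝ in atTop, ‖hh A B L x‖ ≤
      ((2 + (B - A)) * Real.exp (-A) / (2 * Real.pi * |x|)) * L⁻¹ := by
    filter_upwards [eventually_gt_atTop (0 : ℝ)] with L hL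
    rw [hh_eq]
    have hpi := Real.pi_pos.ne'
    have hc : 2 * Real.pi * L * x ≠ 0 := by
      have := hL.ne'
      positivity
    refine (osc A B hAB _ hc).trans ?_
    rw [abs_mul, abs_mul, abs_mul, abs_of_pos Real.pi_pos, abs_of_pos hL,
      abs_of_pos (by norm_num : (0 : ℝ) < 2)]
    apply le_of_eq
    have hx' : |x| ≠ 0 := abs_ne_zero.2 hx
    have hp : L ≠ 0 := hL.ne'
    field_simp
  refine squeeze_zero' (Eventually.of_forall fun _ => norm_nonneg _) h1 ?_
  simpa using (tendsto_inv_atTop_zero (𝕜 := ℝ)).const_mul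
    ((2 + (B - A)) * Real.exp (-A) / (2 * Real.pi * |x|))

end Wie

open Wie

/-- task WIE -/
theorem t_WIE : S_WIE := by
  intro hXB k I hat A B hAB
  obtain ⟨-, hXc, -, -⟩ := hXB k I
  have hABl : A ≤ B := hAB.le
  set ν : Measure (ℕ → Fin k) := PP I with hν
  set F : ℝ → ℝ → ℂ := fun L v => ft I (L * Real.exp v) with hF
  have hF' : ∀ L v, F L v = ∫ ω, e (L * Real.exp v * X I ω) ∂ν := fun L v => rfl
  have hFc : ∀ L, Continuous (F L) := by
    intro L
    have : F L = fun v => ∫ ω, e (L * Real.exp v * X I ω) ∂ν := by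
      funext v; exact hF' L v
    rw [this]
    refine continuous_of_dominated (bound := fun _ => 1) ?_ ?_ (integrable_const _) ?_
    · intro u
      exact (continuous_e.comp (continuous_const.mul hXc)).aestronglyMeasurable
    · intro u
      exact Eventually.of_forall fun y => (norm_e _).le
    · refine Eventually.of_forall fun y => ?_
      refine continuous_e.comp (Continuous.mul ?_ continuous_const)
      fun_prop
  -- the second moment
  have h2 : ∀ L, ((∫ u in A..B, ‖F L u‖ ^ 2 : ℝ) : ℂ) =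
      ∫ p : (ℕ → Fin k) × (ℕ → Fin k), hh A B L (X I p.1 - X I p.2) ∂(ν.prod ν) := by
    intro L
    rw [← intervalIntegral.integral_ofReal]
    have h3 : ∀ u : ℝ, ((‖F L u‖ ^ 2 : ℝ) : ℂ) = ∫ p : (ℕ → Fin k) × (ℕ → Fin k),
        e (L * Real.exp u * (X I p.1 - X I p.2)) ∂(ν.prod ν) := by
      intro u
      have h4 : ((‖F L u‖ ^ 2 : ℝ) : ℂ) = F L u * (starRingEnd ℂ) (F L u) := by
        rw [Complex.mul_conj']; push_cast; rfl
      have h5 : (starRingEnd ℂ) (F L u) =
          ∫ y, (starRingEnd ℂ) (e (L * Real.exp u * X I y)) ∂ν := by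
        rw [hF']; exact integral_conj.symm
      rw [h4, h5, hF', ← integral_prod_mul]
      refine integral_congr_ae (Eventually.of_forall fun p => ?_)
      simp only [e]
      rw [← Complex.exp_conj, ← Complex.exp_add, map_mul, Complex.conj_ofReal, Complex.conj_I]
      congr 1
      push_cast
      ring
    simp only [h3]
    simp only [hh, intervalIntegral.integral_of_le hABl]
    refine integral_integral_swap (f := fun (u : ℝ) (p : (ℕ → Fin k) × (ℕ → Fin k)) =>
      e (L * Real.exp u * (X I p.1 - X I p.2))) ?_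
    have hc : Continuous (Function.uncurry fun (u : ℝ) (p : (ℕ → Fin k) × (ℕ → Fin k)) =>
      e (L * Real.exp u * (X I p.1 - X I p.2))) := by
      refine continuous_e.comp (Continuous.mul ?_ ?_)
      · fun_prop
      · exact (hXc.comp (by fun_prop)).sub (hXc.comp (by fun_prop))
    refine (integrable_const (1 : ℝ)).mono' hc.aestronglyMeasurable ?_
    exact Eventually.of_forall fun q => (norm_e _).le
  -- the diagonal
  have hdiag : ∀ᵐ p : (ℕ → Fin k) × (ℕ → Fin k) ∂(ν.prod ν), X I p.1 - X I p.2 ≠ 0 := by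
    have hm : MeasurableSet {p : (ℕ → Fin k) × (ℕ → Fin k) | X I p.1 - X I p.2 = 0} :=
      ((hXc.comp continuous_fst).sub (hXc.comp continuous_snd)).measurable
        (measurableSet_singleton 0)
    have h0 : (ν.prod ν) {p : (ℕ → Fin k) × (ℕ → Fin k) | X I p.1 - X I p.2 = 0} = 0 := by
      rw [Measure.measure_prod_null hm]
      refine Eventually.of_forall fun y => ?_
      have h1 := hat (X I y)
      rw [Measure.map_apply hXc.measurable (measurableSet_singleton _)] at h1
      have h3 : (Prod.mk y ⁻¹' {p : (ℕ → Fin k) × (ℕ → Fin k) | X I p.1 - X I p.2 = 0}) =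
          X I ⁻¹' {X I y} := by
        ext z
        constructor
        · intro h
          have h' : X I y - X I z = 0 := h
          show X I z = X I y
          linarith
        · intro h
          have h' : X I z = X I y := h
          show X I y - X I z = 0
          linarith
      show ν (Prod.mk y ⁻¹' {p : (ℕ → Fin k) × (ℕ → Fin k) | X I p.1 - X I p.2 = 0}) = 0
      rw [h3]
      exact h1
    rw [ae_iff]
    simpa using h0
  have hlim2 : Tendsto (fun L => ∫ p : (ℕ → Fin k) × (ℕ → Fin k), hh A B L (X I p.1 - X I p.2)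
      ∂(ν.prod ν)) atTop (𝓝 0) := by
    have h6 : (0 : ℂ) = ∫ p : (ℕ → Fin k) × (ℕ → Fin k), (0 : ℂ) ∂(ν.prod ν) := by simp
    rw [h6]
    refine tendsto_integral_filter_of_dominated_convergence (fun _ => B - A) ?_ ?_
      (integrable_const _) ?_
    · refine Eventually.of_forall fun L => ?_
      have hcK : Continuous (hh A B L) := by
        unfold hh
        refine intervalIntegral.continuous_parametric_intervalIntegral_of_continuous' ?_ A B
        refine continuous_e.comp (Continuous.mul ?_ continuous_fst)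
        fun_prop
      exact (hcK.comp ((hXc.comp continuous_fst).sub
        (hXc.comp continuous_snd))).aestronglyMeasurable
    · exact Eventually.of_forall fun L => Eventually.of_forall fun p => norm_hh_le _ _ _ hABl _
    · filter_upwards [hdiag] with p hp
      exact tendsto_hh A B hABl _ hp
  have hlim3 : Tendsto (fun L => ∫ u in A..B, ‖F L u‖ ^ 2) atTop (𝓝 0) := by
    have h7 : Tendsto (fun L => ((∫ u in A..B, ‖F L u‖ ^ 2 : ℝ) : ℂ)) atTop (𝓝 0) := by
      simp only [h2]; exact hlim2
    have h8 := (Complex.continuous_re.tendsto 0).comp h7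
    rw [Complex.zero_re] at h8
    exact h8.congr fun L => Complex.ofReal_re _
  -- the first moment
  rw [Metric.tendsto_atTop]
  intro ε hε
  rw [Metric.tendsto_atTop] at hlim3
  set D : ℝ := B - A with hD
  have hD0 : 0 < D := sub_pos.2 hAB
  set δ : ℝ := ε / D with hδ
  have hδ0 : 0 < δ := div_pos hε hD0
  have hδD : δ * D = ε := by rw [hδ]; field_simp
  obtain ⟨L₀, hL₀⟩ := hlim3 (δ * ε) (by positivity)
  refine ⟨L₀, fun L hL => ?_⟩
  have h9 := hL₀ L hL
  rw [Real.dist_eq, sub_zero] at h9 ⊢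
  have h10 := (abs_lt.1 h9).2
  have hnn : 0 ≤ ∫ u in A..B, ‖F L u‖ :=
    intervalIntegral.integral_nonneg hABl fun u _ => norm_nonneg _
  rw [abs_of_nonneg hnn]
  have h11 : ∫ u in A..B, ‖F L u‖ ≤ ∫ u in A..B, (δ / 2 + ‖F L u‖ ^ 2 / (2 * δ)) := by
    have hc0 := hFc L
    refine intervalIntegral.integral_mono_on hABl ((hFc L).norm.intervalIntegrable _ _)
      ((by fun_prop : Continuous fun u => δ / 2 + ‖F L u‖ ^ 2 / (2 * δ)).intervalIntegrable _ _) ?_
    intro u _
    have h12 : δ / 2 + ‖F L u‖ ^ 2 / (2 * δ) - ‖F L u‖ = (δ - ‖F L u‖) ^ 2 / (2 * δ) := by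
      field_simp; ring
    have h13 : 0 ≤ (δ - ‖F L u‖) ^ 2 / (2 * δ) := by positivity
    linarith
  have h14 : ∫ u in A..B, (δ / 2 + ‖F L u‖ ^ 2 / (2 * δ)) =
      D * (δ / 2) + (∫ u in A..B, ‖F L u‖ ^ 2) / (2 * δ) := by
    have hc0 := hFc L
    rw [intervalIntegral.integral_add (continuous_const.intervalIntegrable _ _) (((by fun_prop :
      Continuous fun u => ‖F L u‖ ^ 2 / (2 * δ))).intervalIntegrable _ _),
      intervalIntegral.integral_const, smul_eq_mul]
    congr 1
    exact intervalIntegral.integral_div _ _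
  rw [h14] at h11
  have h15 : (∫ u in A..B, ‖F L u‖ ^ 2) / (2 * δ) < ε / 2 := by
    rw [div_lt_iff₀ (by positivity)]
    calc (∫ u in A..B, ‖F L u‖ ^ 2) < δ * ε := h10
      _ = ε / 2 * (2 * δ) := by ring
  have h16 : D * (δ / 2) = ε / 2 := by rw [← hδD]; ring
  have h17 : ∫ u in A..B, ‖ft I (L * Real.exp u)‖ = ∫ u in A..B, ‖F L u‖ := rfl
  linarith

end Pool.Agent.T3H29.SS
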