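import Pool.Agent.T3H29.SS.Stm

/-!
# The random series (S_XB)
-/

set_option autoImplicit false

namespace Pool.Agent.T3H29.SS.XBP

open MeasureTheory ProbabilityTheory Filter Topology Finset
open Pool.Agent.T3H29.SS

variable {k : ℕ} (I : Ifs k)

lemma exists_q : ∃ q : ℝ, 0 ≤ q ∧ q < 1 ∧ ∀ i, |I.r i| ≤ q := by
  rcases isEmpty_or_nonempty (Fin k) with h | h
  · exact ⟨0, le_rfl, one_pos, fun i => (h.false i).elim⟩
  · obtain ⟨i₀, hi₀⟩ := Finite.exists_max fun i => |I.r i|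
    exact ⟨|I.r i₀|, abs_nonneg _, I.r_lt i₀, hi₀⟩

lemma tau_le (i : Fin k) : |I.τ i| ≤ ∑ j, |I.τ j| :=
  Finset.single_le_sum (f := fun j => |I.τ j|) (fun j _ => abs_nonneg _) (Finset.mem_univ i)

lemma R_le {q : ℝ} (hq : ∀ i, |I.r i| ≤ q) (ω : ℕ → Fin k) (n : ℕ) : |R I ω n| ≤ q ^ n := by
  unfold R
  rw [Finset.abs_prod]
  calc ∏ i ∈ range n, |I.r (ω i)| ≤ ∏ _i ∈ range n, q :=
        Finset.prod_le_prod (fun i _ => abs_nonneg _) fun i _ => hq _
    _ = q ^ n := by rw [Finset.prod_const, Finset.card_range]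

lemma term_le {q : ℝ} (hq : ∀ i, |I.r i| ≤ q) (hq0 : 0 ≤ q) (ω : ℕ → Fin k) (n : ℕ) :
    ‖R I ω n * I.τ (ω n)‖ ≤ q ^ n * ∑ j, |I.τ j| := by
  rw [norm_mul]
  exact mul_le_mul (R_le I hq ω n) (tau_le I _) (abs_nonneg _) (pow_nonneg hq0 _)

lemma summable_term (ω : ℕ → Fin k) : Summable fun n => R I ω n * I.τ (ω n) := by
  obtain ⟨q, hq0, hq1, hq⟩ := exists_q I
  exact Summable.of_norm_bounded ((summable_geometric_of_lt_one hq0 hq1).mul_right _) (term_le I hq hq0 ω)

lemma R_add (ω : ℕ → Fin k) (n i : ℕ) : R I ω (i + n) = R I ω n * R I (fun j => ω (j + n)) i := by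
  unfold R
  rw [add_comm i n, Finset.prod_range_add]
  congr 1
  exact Finset.prod_congr rfl fun j _ => by rw [add_comm]

lemma split (n : ℕ) (ω : ℕ → Fin k) : X I ω = S I ω n + R I ω n * X I (fun i => ω (i + n)) := by
  have h := (summable_term I ω).sum_add_tsum_nat_add n
  unfold X S
  rw [← h, ← tsum_mul_left]
  congr 1
  refine tsum_congr fun i => ?_
  rw [R_add, mul_assoc]

lemma R_spl (n : ℕ) (ω η : ℕ → Fin k) (m : ℕ) (hm : m ≤ n) : R I (spl n ω η) m = R I ω m := by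
  unfold R
  refine Finset.prod_congr rfl fun i hi => ?_
  have : i < n := lt_of_lt_of_le (Finset.mem_range.1 hi) hm
  unfold spl
  rw [if_pos this]

lemma S_spl (n : ℕ) (ω η : ℕ → Fin k) : S I (spl n ω η) n = S I ω n := by
  unfold S
  refine Finset.sum_congr rfl fun i hi => ?_
  have : i < n := Finset.mem_range.1 hi
  rw [R_spl I n ω η i this.le]
  unfold spl
  rw [if_pos this]

lemma shift_spl (n : ℕ) (ω η : ℕ → Fin k) : (fun i => spl n ω η (i + n)) = η := by
  funext i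
  unfold spl
  rw [if_neg (by omega), Nat.add_sub_cancel]

lemma continuous_R (n : ℕ) : Continuous fun ω => R I ω n := by
  unfold R
  exact continuous_finsetProd _ fun i _ => continuous_of_discreteTopology.comp (continuous_apply i)

end Pool.Agent.T3H29.SS.XBP

namespace Pool.Agent.T3H29.SS

open Finset XBP

theorem t_XB : S_XB := by
  intro k I
  obtain ⟨q, hq0, hq1, hq⟩ := exists_q I
  have hsum : Summable fun n : ℕ => q ^ n * ∑ j, |I.τ j| := (summable_geometric_of_lt_one hq0 hq1).mul_right _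
  refine ⟨⟨∑' n : ℕ, q ^ n * ∑ j, |I.τ j|, ?_, fun ω => ?_⟩, ?_, ?_, fun n ω => split I n ω⟩
  · exact tsum_nonneg fun n => mul_nonneg (pow_nonneg hq0 _) (Finset.sum_nonneg fun j _ => abs_nonneg _)
  · exact tsum_of_norm_bounded hsum.hasSum (term_le I hq hq0 ω)
  · refine continuous_tsum (fun n => ?_) hsum fun n ω => term_le I hq hq0 ω n
    exact (continuous_R I n).mul (continuous_of_discreteTopology.comp (continuous_apply n))
  · intro n ω η
    rw [split I n, S_spl, R_spl I n ω η n le_rfl, shift_spl]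

end Pool.Agent.T3H29.SS
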