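import Pool.Agent.T3H29.SS.Lin

/-! # The deterministic estimate -/

set_option autoImplicit false

namespace Pool.Agent.T3H29.SS

open MeasureTheory ProbabilityTheory Filter Topology Finset
open Pool.Agent.T3H29.HR (e)

variable {k : ℕ} (I : Ifs k)

theorem det (hSTP : S_STP) (hEQD : S_EQD) (hCNT : S_CNT) (β t : ℝ) (hβ : 1 < β) (ht : t ≠ 0) (a : ℕ → ℝ)
    (ha : Tendsto (fun n => a n / β ^ n) atTop (𝓝 t)) (C : ℝ) (hC : 0 ≤ C) (hcont : Continuous (ft I))
    (hlip : ∀ ξ ξ' : ℝ, ‖ft I ξ - ft I ξ'‖ ≤ C * |ξ - ξ'|) (c : ℝ) (hc : 0 < c) (hc1 : c ≤ 1)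
    (hcr : ∀ i, c ≤ |I.r i|) :
    ∃ C1 : ℝ, 0 ≤ C1 ∧ ∀ ω : ℕ → Fin k,
    (∀ l : ℤ, l ≠ 0 → Tendsto (fun M : ℕ => ‖∑ m ∈ range M, e (l * Real.log |R I ω m| / Real.log β)‖ / M)
      atTop (𝓝 0)) → ∀ (K : ℕ) (ε : ℝ), 0 < ε → ∀ᶠ N : ℕ in atTop,
      ∑ n ∈ range N, ‖ft I (a n * R I ω (st I (|t| * β ^ n / β ^ K) ω))‖ ≤
        N * (C1 * (∫ v in (Real.log c - 1)..1, ‖ft I (β ^ K * Real.exp v)‖) + ε) := by
  obtain ⟨h1, h2, -, -, h5, A, hA, h6⟩ := hSTP k I
  set θ : ℝ := Real.log β with hθ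
  have hθ0 : 0 < θ := Real.log_pos hβ
  have hβ0 : (0 : ℝ) < β := by linarith
  have ht0 : 0 < |t| := abs_pos.2 ht
  refine ⟨(A * θ + 1) / θ, by positivity, ?_⟩
  intro ω hω K ε hε
  set T : ℕ → ℝ := fun n => |t| * β ^ n / β ^ K with hT
  have hTpos : ∀ n, 0 < T n := fun n => by simp only [hT]; positivity
  have hlogT : ∀ n : ℕ, Real.log (T n) = n * θ + (Real.log |t| - K * θ) := by
    intro n
    simp only [hT]
    rw [Real.log_div (by positivity) (by positivity), Real.log_mul ht0.ne' (by positivity), Real.log_pow,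
      Real.log_pow]
    ring
  -- the ratio
  set q : ℕ → ℝ := fun n => |a n| / (|t| * β ^ n) with hq
  have hq1 : Tendsto q atTop (𝓝 1) := by
    have h3 : Tendsto (fun n => |a n / β ^ n| / |t|) atTop (𝓝 (|t| / |t|)) := (ha.abs).div_const _
    rw [div_self ht0.ne'] at h3
    refine h3.congr fun n => ?_
    simp only [hq]
    rw [abs_div, abs_of_pos (pow_pos hβ0 n), div_div, mul_comm]
  have hTlim : Tendsto T atTop atTop := by
    have h3 : Tendsto (fun n : ℕ => β ^ n) atTop atTop := tendsto_pow_atTop_atTop_of_one_lt hβ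
    have h4 : Tendsto (fun n : ℕ => (|t| / β ^ K) * β ^ n) atTop atTop := h3.const_mul_atTop (by positivity)
    refine h4.congr fun n => ?_
    simp only [hT]
    ring
  set δ : ℝ := ε / 4 / (C * β ^ K + 1) with hδ
  have hδ0 : 0 < δ := by positivity
  have hev : ∀ᶠ n : ℕ in atTop, 1 < T n ∧ |q n - 1| ≤ δ := by
    refine (hTlim.eventually_gt_atTop 1).and ?_
    have := Metric.tendsto_atTop.1 hq1 δ hδ0
    obtain ⟨n0, hn0⟩ := this
    filter_upwards [eventually_ge_atTop n0] with n hn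
    have := hn0 n hn
    rw [Real.dist_eq] at this
    exact this.le
  obtain ⟨n1, hn1⟩ := eventually_atTop.1 hev
  -- the test function
  set F : ℝ → ℝ := FK I (Real.log c) (β ^ K) with hF
  have hlogc : Real.log c ≤ 0 := Real.log_nonpos hc.le hc1
  have hF0 : ∀ v, 0 ≤ F v := fun v => FK_nonneg I _ _ v
  set c0 : ℝ := Real.log |t| - K * θ with hc0
  set u : ℕ → ℝ := fun m => Real.log |R I ω m| with hu
  set m : ℕ → ℕ := fun n => st I (T n) ω with hm
  have hRne : ∀ j, R I ω j ≠ 0 := fun j => by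
    unfold R
    exact Finset.prod_ne_zero_iff.2 fun i _ => I.r_ne _
  have hterm : ∀ n, n1 ≤ n → ‖ft I (a n * R I ω (m n))‖ ≤ F (n * θ + c0 + u (m n)) + ε / 4 := by
    intro n hn
    obtain ⟨g1, g2⟩ := hn1 n hn
    set v : ℝ := n * θ + c0 + u (m n) with hv
    have hRp : 0 < |R I ω (m n)| := abs_pos.2 (hRne _)
    have hev : Real.exp v = |R I ω (m n)| * T n := by
      rw [hv, ← hlogT, Real.exp_add, Real.exp_log (hTpos n)]
      simp only [hu]
      rw [Real.exp_log hRp]
      ring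
    have e1 : Real.exp v ≤ 1 := by rw [hev]; exact h1 (T n) (hTpos n) ω
    have e2 : c < Real.exp v := by rw [hev]; exact h2 c hcr hc (T n) g1 ω
    have v0 : v ≤ 0 := by rwa [Real.exp_le_one_iff] at e1
    have v1 : Real.log c ≤ v := by
      rw [Real.log_le_iff_le_exp hc]
      exact e2.le
    have hFv : F v = ‖ft I (β ^ K * Real.exp v)‖ := by
      simp only [hF, FK]
      rw [bump_one v1 v0, mul_one]
    have hprod : |a n * R I ω (m n)| = q n * (β ^ K * Real.exp v) := by
      rw [hev, abs_mul]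
      simp only [hq, hT]
      field_simp
    rw [hFv, ← ft_abs, hprod]
    have h3 := hlip (q n * (β ^ K * Real.exp v)) (β ^ K * Real.exp v)
    have h4 : |q n * (β ^ K * Real.exp v) - β ^ K * Real.exp v| ≤ δ * β ^ K := by
      have : q n * (β ^ K * Real.exp v) - β ^ K * Real.exp v = (q n - 1) * (β ^ K * Real.exp v) := by ring
      rw [this, abs_mul, abs_of_pos (show 0 < β ^ K * Real.exp v by positivity)]
      have h5 : β ^ K * Real.exp v ≤ β ^ K := mul_le_of_le_one_right (by positivity) e1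
      nlinarith [abs_nonneg (q n - 1), show 0 < β ^ K * Real.exp v by positivity]
    have h5 : C * |q n * (β ^ K * Real.exp v) - β ^ K * Real.exp v| ≤ ε / 4 := by
      calc C * |q n * (β ^ K * Real.exp v) - β ^ K * Real.exp v| ≤ C * (δ * β ^ K) :=
            mul_le_mul_of_nonneg_left h4 hC
        _ = (C * β ^ K) * (ε / 4) / (C * β ^ K + 1) := by rw [hδ]; ring
        _ ≤ ε / 4 := by
            rw [div_le_iff₀ (by positivity)]
            nlinarith [show 0 ≤ C * β ^ K by positivity]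
    have h6 := norm_le_norm_add_norm_sub' (ft I (q n * (β ^ K * Real.exp v))) (ft I (β ^ K * Real.exp v))
    linarith
  -- number of indices
  set L0 : ℝ := |Real.log (|t|)| with hL0
  set M : ℕ → ℕ := fun N => ⌊A * (L0 + N * θ) + A⌋₊ + 1 with hM
  have hmM : ∀ N n : ℕ, n < N → m n < M N := by
    intro N n hn
    have h3 : m n ≤ st I (max 1 (T n)) ω := h5 (T n) _ (hTpos n) (le_max_right _ _) ω
    have h4 := h6 (max 1 (T n)) (le_max_left _ _) ω
    have h7 : Real.log (max 1 (T n)) ≤ L0 + N * θ := by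
      have hLL : 0 ≤ L0 + N * θ := by positivity
      rcases le_total 1 (T n) with h | h
      · rw [max_eq_right h, hlogT]
        have h8 : Real.log |t| ≤ L0 := le_abs_self _
        have h9 : (n : ℝ) ≤ N := by exact_mod_cast hn.le
        have h10 : (0 : ℝ) ≤ K * θ := by positivity
        nlinarith
      · rw [max_eq_left h, Real.log_one]
        exact hLL
    have h8 : (m n : ℝ) ≤ A * (L0 + N * θ) + A := by
      have : (m n : ℝ) ≤ (st I (max 1 (T n)) ω : ℝ) := by exact_mod_cast h3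
      nlinarith
    simp only [hM]
    have := Nat.le_floor h8
    omega
  have hMle : ∀ N : ℕ, (M N : ℝ) ≤ A * (L0 + N * θ) + A + 1 := by
    intro N
    simp only [hM]
    push_cast
    have := Nat.floor_le (show 0 ≤ A * (L0 + N * θ) + A by positivity)
    linarith
  have hMlim : Tendsto M atTop atTop := by
    refine tendsto_atTop_mono (f := fun N : ℕ => ⌊(A * θ) * (N : ℝ)⌋₊) ?_ ?_
    · intro N
      simp only [hM]
      refine le_trans (Nat.floor_le_floor ?_) (Nat.le_succ _)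
      have : 0 ≤ A * L0 := by positivity
      nlinarith
    · exact tendsto_nat_floor_atTop.comp (tendsto_natCast_atTop_atTop.const_mul_atTop (by positivity))
  set J : ℝ := ∫ v in (Real.log c - 1)..1, ‖ft I (β ^ K * Real.exp v)‖ with hJ
  have hFJ : ∫ v, F v ≤ J := FK_int I hcont _ _ hlogc
  have hJ0 : 0 ≤ J := le_trans (integral_nonneg hF0) hFJ
  set ε2 : ℝ := ε / (4 * (A * θ + 1)) with hε2
  have hAθ : 0 < A * θ + 1 := by positivity
  have hEq := hEQD θ u hθ0 hω F (FK_cont I hcont _ _) (FK_supp I _ _) hF0 c0 ε2 (by positivity)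
  have hEq2 := hMlim.eventually hEq
  obtain ⟨N2, hN2⟩ := exists_nat_ge (A * L0 + A + 1)
  obtain ⟨N3, hN3⟩ := exists_nat_ge (4 * n1 / ε)
  filter_upwards [hEq2, eventually_ge_atTop N2, eventually_ge_atTop N3] with N k1 k2 k3
  have hNr2 : A * L0 + A + 1 ≤ (N : ℝ) := hN2.trans (by exact_mod_cast k2)
  have hNr3 : 4 * (n1 : ℝ) / ε ≤ N := hN3.trans (by exact_mod_cast k3)
  have hn1N : (n1 : ℝ) ≤ N * (ε / 4) := by
    rw [div_le_iff₀ hε] at hNr3
    linarith
  have k4 := hCNT θ c0 u m F N (M N) hθ0 (FK_supp I _ _) hF0 (hmM N)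
  have hMN : (M N : ℝ) ≤ (A * θ + 1) * N := by
    have := hMle N
    nlinarith
  have k5 : ∑ n ∈ range N, ‖ft I (a n * R I ω (m n))‖ ≤
      ∑ n ∈ range N, (F (n * θ + c0 + u (m n)) + ε / 4 + (if n < n1 then 1 else 0)) := by
    refine Finset.sum_le_sum fun n _ => ?_
    by_cases hn : n1 ≤ n
    · rw [if_neg (by omega), add_zero]
      exact hterm n hn
    · rw [if_pos (by omega)]
      have := ft_le I (a n * R I ω (m n))
      have h7 := hF0 (n * θ + c0 + u (m n))
      linarith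
  have k6 : ∑ n ∈ range N, (F (n * θ + c0 + u (m n)) + ε / 4 + (if n < n1 then (1 : ℝ) else 0)) ≤
      (∑ n ∈ range N, F (n * θ + c0 + u (m n))) + N * (ε / 4) + n1 := by
    rw [Finset.sum_add_distrib, Finset.sum_add_distrib, sum_const, card_range, nsmul_eq_mul]
    have h7 : ∑ n ∈ range N, (if n < n1 then (1 : ℝ) else 0) ≤ n1 := by
      rw [← Finset.sum_filter, sum_const, nsmul_eq_mul, mul_one]
      have : ((range N).filter (fun n => n < n1)).card ≤ (range n1).card := by
        apply card_le_card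
        intro n hn
        rw [mem_filter] at hn
        exact mem_range.2 hn.2
      rw [card_range] at this
      exact_mod_cast this
    linarith
  have k7 : (∑ n ∈ range N, F (n * θ + c0 + u (m n))) ≤ (A * θ + 1) * N * (J / θ + ε2) := by
    refine k4.trans (k1.trans ?_)
    have h8 : (∫ x, F x) / θ + ε2 ≤ J / θ + ε2 := by
      have : (∫ x, F x) / θ ≤ J / θ := div_le_div_of_nonneg_right hFJ hθ0.le
      linarith
    have h9 : 0 ≤ (∫ x, F x) / θ + ε2 := by
      have h10 : 0 ≤ ∫ x, F x := integral_nonneg hF0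
      positivity
    calc (M N : ℝ) * ((∫ x, F x) / θ + ε2) ≤ ((A * θ + 1) * N) * ((∫ x, F x) / θ + ε2) :=
          mul_le_mul_of_nonneg_right hMN h9
      _ ≤ ((A * θ + 1) * N) * (J / θ + ε2) := mul_le_mul_of_nonneg_left h8 (by positivity)
  have k8 : (A * θ + 1) * N * ε2 = N * (ε / 4) := by
    rw [hε2]
    field_simp
  have k9 : (A * θ + 1) * N * (J / θ + ε2) = N * ((A * θ + 1) / θ * J) + N * (ε / 4) := by
    rw [mul_add, k8]
    congr 1
    ring
  have k10 : (0 : ℝ) ≤ N * (ε / 4) := by positivity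
  calc ∑ n ∈ range N, ‖ft I (a n * R I ω (m n))‖ ≤ _ := k5
    _ ≤ _ := k6
    _ ≤ N * ((A * θ + 1) / θ * J) + N * (ε / 4) + N * (ε / 4) + N * (ε / 4) := by linarith
    _ ≤ N * ((A * θ + 1) / θ * J + ε) := by nlinarith

end Pool.Agent.T3H29.SS
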