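import Pool.Agent.T3H29.SS.Det

/-! # The theorem -/

set_option autoImplicit false

namespace Pool.Agent.T3H29.SS

open MeasureTheory ProbabilityTheory Filter Topology Finset
open Pool.Agent.T3H29.HR (e as_of_second second_moment DW DA DW_le DA_tendsto small_poly equi_S)
open Pool.Agent.T3H29.HR.VdcAux (Small)

variable {k : ℕ} (I : Ifs k)

/-- the linear sums -/
theorem linear (hSMK : S_SMK) (hSPL : S_SPL) (hXB : S_XB) (hSTP : S_STP) (hGME : S_GME) (hCOR : S_COR)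
    (hWEY : S_WEY) (hEQD : S_EQD) (hCNT : S_CNT) (hWIE : S_WIE) (β t : ℝ) (hβ : 1 < β) (ht : t ≠ 0)
    (hirr : ∃ i, Irrational (Real.log |I.r i| / Real.log β))
    (hNA : ∀ x : ℝ, (PP I).map (X I) {x} = 0) (a : ℕ → ℝ)
    (ha : Tendsto (fun n => a n / β ^ n) atTop (𝓝 t)) (z : ℕ → ℂ) (hz : ∀ n, ‖z n‖ ≤ 1) :
    ∀ᵐ ω ∂(PP I), Small (fun N : ℕ => ∑ n ∈ range N, z n * e (a n * X I ω)) := by
  have hβ0 : (0 : ℝ) < β := by linarith
  have ht0 : 0 < |t| := abs_pos.2 ht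
  have hTpos : ∀ K n : ℕ, 0 < |t| * β ^ n / β ^ K := fun K n => by positivity
  have hXc : Continuous (X I) := (hXB k I).2.1
  obtain ⟨-, -, -, -, hcont, C, hC, hlip⟩ := hGME hXB hSTP k I 0 1 one_pos
  obtain ⟨c, hc, hc1, hcr⟩ := exists_c I
  obtain ⟨C1, hC1, hdet⟩ := det I hSTP hEQD hCNT β t hβ ht a ha C hC hcont hlip c hc hc1 hcr
  -- the law of large numbers
  have hlln : ∀ K : ℕ, ∀ᵐ ω ∂(PP I), ∀ ε : ℝ, 0 < ε → ∀ᶠ N : ℕ in atTop,
      ‖∑ n ∈ range N, z n * (e (a n * X I ω) - G I (a n) (|t| * β ^ n / β ^ K) ω)‖ ≤ ε * N := by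
    intro K
    obtain ⟨A, ρ, hA, hρ, hρ1, hcor⟩ := hCOR hSMK hSPL hXB hSTP hGME k I β t a z K hβ ht ha hz
    have hm : ∀ n, Measurable (fun ω => z n * (e (a n * X I ω) - G I (a n) (|t| * β ^ n / β ^ K) ω)) := by
      intro n
      have h1 := (hGME hXB hSTP k I (a n) _ (hTpos K n)).1
      exact ((e_cont'.measurable.comp (hXc.measurable.const_mul _)).sub h1).const_mul _
    have hb : ∀ n ω, ‖z n * (e (a n * X I ω) - G I (a n) (|t| * β ^ n / β ^ K) ω)‖ ≤ 2 := by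
      intro n ω
      have h1 := (hGME hXB hSTP k I (a n) _ (hTpos K n)).2.2.1 ω
      rw [norm_mul]
      have h2 := norm_sub_le (e (a n * X I ω)) (G I (a n) (|t| * β ^ n / β ^ K) ω)
      rw [norm_e] at h2
      have h3 := hz n
      nlinarith [norm_nonneg (z n), norm_nonneg (e (a n * X I ω) - G I (a n) (|t| * β ^ n / β ^ K) ω)]
    refine as_of_second (PP I) _ hm hb (4 + 2 * A / (1 - ρ)) ?_ ?_
    · have : 0 < 1 - ρ := by linarith
      positivity
    · exact second_moment (PP I) _ hm hb A ρ hA hρ hρ1 hcor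
  have hint := hWIE hXB k I hNA (Real.log c - 1) 1 (by
    have := Real.log_nonpos hc.le hc1
    linarith)
  have hK : Tendsto (fun K : ℕ => ∫ v in (Real.log c - 1)..1, ‖ft I (β ^ K * Real.exp v)‖) atTop (𝓝 0) :=
    hint.comp (tendsto_pow_atTop_atTop_of_one_lt hβ)
  filter_upwards [ae_all_iff.2 hlln, hWEY k I (Real.log β) (Real.log_pos hβ) hirr] with ω h1 h2
  unfold Pool.Agent.T3H29.HR.VdcAux.Small
  rw [Metric.tendsto_atTop']
  intro ε hε
  have hK2 : Tendsto (fun K : ℕ => C1 * ∫ v in (Real.log c - 1)..1, ‖ft I (β ^ K * Real.exp v)‖) atTop (𝓝 0) := by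
    have := hK.const_mul C1
    rwa [mul_zero] at this
  obtain ⟨K, hKε⟩ := (hK2.eventually (gt_mem_nhds (show (0 : ℝ) < ε / 4 by positivity))).exists
  have h3 := h1 K (ε / 4) (by positivity)
  have h4 := hdet ω h2 K (ε / 4) (by positivity)
  obtain ⟨N0, hN0⟩ := eventually_atTop.1 (h3.and (h4.and (eventually_gt_atTop 0)))
  refine ⟨N0, fun N hN => ?_⟩
  obtain ⟨g1, g2, g3⟩ := hN0 N hN.le
  have hNr : (0 : ℝ) < N := by exact_mod_cast g3
  rw [Real.dist_eq, sub_zero, abs_of_nonneg (by positivity), div_lt_iff₀ hNr]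
  have h5 : ∑ n ∈ range N, z n * e (a n * X I ω) =
      ∑ n ∈ range N, z n * (e (a n * X I ω) - G I (a n) (|t| * β ^ n / β ^ K) ω) +
      ∑ n ∈ range N, z n * G I (a n) (|t| * β ^ n / β ^ K) ω := by
    rw [← Finset.sum_add_distrib]
    refine Finset.sum_congr rfl fun n _ => ?_
    ring
  have h6 : ‖∑ n ∈ range N, z n * G I (a n) (|t| * β ^ n / β ^ K) ω‖ ≤
      ∑ n ∈ range N, ‖ft I (a n * R I ω (st I (|t| * β ^ n / β ^ K) ω))‖ := by
    refine (norm_sum_le _ _).trans (Finset.sum_le_sum fun n _ => ?_)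
    rw [norm_mul, (hGME hXB hSTP k I (a n) _ (hTpos K n)).2.1 ω]
    exact mul_le_of_le_one_left (norm_nonneg _) (hz n)
  change ‖∑ n ∈ range N, z n * e (a n * X I ω)‖ < ε * N
  rw [h5]
  refine lt_of_le_of_lt ((norm_add_le _ _).trans (add_le_add g1 (h6.trans g2))) ?_
  nlinarith

open scoped Classical in
/-- **The general theorem.** -/
theorem main (hSMK : S_SMK) (hSPL : S_SPL) (hXB : S_XB) (hSTP : S_STP) (hGME : S_GME) (hCOR : S_COR)
    (hWEY : S_WEY) (hEQD : S_EQD) (hCNT : S_CNT) (hWIE : S_WIE) (hLAW : S_LAW) (hNAT : S_NAT)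
    (μ : Measure ℝ) [IsProbabilityMeasure μ] (hμ : Stationary I μ)
    (hfix : ∃ i j, I.τ i / (1 - I.r i) ≠ I.τ j / (1 - I.r j)) (β t : ℝ) (hβ : 1 < β) (ht : t ≠ 0)
    (hirr : ∃ i, Irrational (Real.log |I.r i| / Real.log β)) (a c : ℕ → ℝ)
    (ha : Tendsto (fun n => a n / β ^ n) atTop (𝓝 t)) (S : Set ℕ) :
    ∀ᵐ x ∂μ, ∀ Q : Polynomial ℝ, ∀ u v : ℝ, 0 ≤ u → u ≤ v → v ≤ 1 →
      Tendsto (fun N : ℕ => ((((Icc 1 N).filter (fun n : ℕ => n ∈ S ∧
        Int.fract (a n * x + c n + Q.eval (n : ℝ)) ∈ Set.Ico u v)).card : ℝ) -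
        (v - u) * ((Icc 1 N).filter (fun n : ℕ => n ∈ S)).card) / N) atTop (𝓝 0) := by
  have hlaw : (PP I).map (X I) = μ := hLAW hXB hSPL k I μ inferInstance hμ
  have hNA : ∀ x : ℝ, (PP I).map (X I) {x} = 0 := by
    rw [hlaw]
    exact hNAT k I μ inferInstance hμ hfix
  have hXm : Measurable (X I) := (hXB k I).2.1.measurable
  have lin : ∀ (t : ℝ), t ≠ 0 → ∀ (a : ℕ → ℝ), Tendsto (fun n => a n / β ^ n) atTop (𝓝 t) →
      ∀ (z : ℕ → ℂ), (∀ n, ‖z n‖ ≤ 1) → ∀ᵐ x ∂μ, Small (fun N : ℕ => ∑ n ∈ range N, z n * e (a n * x)) := by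
    intro t ht a ha z hz
    have h1 := linear I hSMK hSPL hXB hSTP hGME hCOR hWEY hEQD hCNT hWIE β t hβ ht hirr hNA a ha z hz
    have hm : MeasurableSet {y : ℝ | Small (fun N : ℕ => ∑ n ∈ range N, z n * e (a n * y))} := by
      unfold Pool.Agent.T3H29.HR.VdcAux.Small
      refine measurableSet_tendsto (𝓝 0) fun N => ?_
      refine (Measurable.norm ?_).div_const _
      refine Finset.measurable_fun_sum _ fun n _ => ?_
      exact (e_cont'.measurable.comp (measurable_id.const_mul _)).const_mul _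
    rw [← hlaw]
    exact (ae_map_iff hXm.aemeasurable hm).2 h1
  set w : ℕ → ℕ → ℂ := fun h n => (if n ∈ S then (1 : ℂ) else 0) * e (h * c n) with hw
  have hw1 : ∀ h n, ‖w h n‖ ≤ 1 := by
    intro h n
    simp only [hw]
    rw [norm_mul, norm_e, mul_one]
    split_ifs <;> simp
  have hall : ∀ᵐ x ∂μ, ∀ (h : ℕ) (L : List ℕ), 1 ≤ h →
      Small (fun N : ℕ => ∑ n ∈ range N, DW L (w h) n * e (DA L (fun n => h * a n) n * x)) := by
    rw [ae_all_iff]
    intro h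
    rw [ae_all_iff]
    intro L
    by_cases hh : 1 ≤ h
    · have hh0 : (h : ℝ) ≠ 0 := by exact_mod_cast (by omega : h ≠ 0)
      have h1 : Tendsto (fun n => (fun n => (h : ℝ) * a n) n / β ^ n) atTop (𝓝 (h * t)) := by
        refine (ha.const_mul (h : ℝ)).congr fun n => ?_
        ring
      obtain ⟨t', ht', h2⟩ := DA_tendsto β hβ L (fun n => (h : ℝ) * a n) (h * t) (mul_ne_zero hh0 ht) h1
      filter_upwards [lin t' ht' _ h2 _ (DW_le L (w h) (hw1 h))] with x hx _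
      exact hx
    · exact Eventually.of_forall fun x h3 => absurd h3 hh
  filter_upwards [hall] with x hx Q u v hu huv hv
  refine equi_S S (fun n => a n * x + c n + Q.eval (n : ℝ)) ?_ u v hu huv hv
  intro h hh
  have h1 := small_poly x (w h) (fun n => h * a n) (hw1 h) (fun L => hx h L hh)
    (Polynomial.C (h : ℝ) * Q).natDegree [] (Polynomial.C (h : ℝ) * Q) le_rfl
  unfold Pool.Agent.T3H29.HR.VdcAux.Small at h1 ⊢
  refine h1.congr fun N => ?_
  congr 2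
  refine sum_congr rfl fun n _ => ?_
  change ((if n ∈ S then (1 : ℂ) else 0) * e (h * c n)) * e ((h * a n) * x + (Polynomial.C (h : ℝ) * Q).eval (n : ℝ)) =
    (if n ∈ S then (1 : ℂ) else 0) * e (h * (a n * x + c n + Q.eval (n : ℝ)))
  rw [mul_assoc, ← Pool.Agent.T3H29.HR.e_add, Polynomial.eval_mul, Polynomial.eval_C]
  congr 2
  ring

end Pool.Agent.T3H29.SS
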