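import Pool.Agent.T3H29.SS.Stm
import Pool.Agent.T3H29.HR.Gen

/-! # The linear sums -/

set_option autoImplicit false

namespace Pool.Agent.T3H29.SS

open MeasureTheory ProbabilityTheory Filter Topology Finset
open Pool.Agent.T3H29.HR (e as_of_second second_moment DW DA DW_le DA_tendsto small_poly equi_S)
open Pool.Agent.T3H29.HR.VdcAux (Small)

variable {k : ℕ} (I : Ifs k)

lemma norm_e (x : ℝ) : ‖e x‖ = 1 := Pool.Agent.T3H29.HR.norm_e x

lemma e_cont' : Continuous e := Pool.Agent.T3H29.HR.e_cont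

lemma conj_e' (x : ℝ) : (starRingEnd ℂ) (e x) = e (-x) := by
  unfold e
  rw [← Complex.exp_conj]
  congr 1
  rw [map_mul, Complex.conj_ofReal, Complex.conj_I]
  push_cast
  ring

lemma ft_neg (ξ : ℝ) : ‖ft I (-ξ)‖ = ‖ft I ξ‖ := by
  have h : ft I (-ξ) = (starRingEnd ℂ) (ft I ξ) := by
    unfold ft
    rw [← integral_conj]
    refine integral_congr_ae (Eventually.of_forall fun ω => ?_)
    simp only
    rw [conj_e']
    congr 1
    ring
  rw [h, RCLike.norm_conj]

lemma ft_abs (ξ : ℝ) : ‖ft I |ξ|‖ = ‖ft I ξ‖ := by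
  rcases abs_choice ξ with h | h
  · rw [h]
  · rw [h, ft_neg]

/-- a bump function, equal to `1` on `[A, 0]` -/
noncomputable def bump (A : ℝ) (v : ℝ) : ℝ := max 0 (min 1 (min (v - A + 1) (1 - v)))

lemma bump_cont (A : ℝ) : Continuous (bump A) := by
  unfold bump
  fun_prop

lemma bump_nonneg (A v : ℝ) : 0 ≤ bump A v := le_max_left _ _

lemma bump_le (A v : ℝ) : bump A v ≤ 1 := max_le zero_le_one (min_le_left _ _)

lemma bump_one {A v : ℝ} (h1 : A ≤ v) (h2 : v ≤ 0) : bump A v = 1 := by
  unfold bump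
  rw [min_eq_left (le_min (by linarith) (by linarith)), max_eq_right zero_le_one]

lemma bump_zero {A v : ℝ} (h : v ∉ Set.Icc (A - 1) 1) : bump A v = 0 := by
  unfold bump
  rw [Set.mem_Icc, not_and_or, not_le, not_le] at h
  apply max_eq_left
  rcases h with h | h
  · exact (min_le_right _ _).trans ((min_le_left _ _).trans (by linarith))
  · exact (min_le_right _ _).trans ((min_le_right _ _).trans (by linarith))

/-- the test function -/
noncomputable def FK (A L : ℝ) (v : ℝ) : ℝ := ‖ft I (L * Real.exp v)‖ * bump A v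

lemma FK_cont (hc : Continuous (ft I)) (A L : ℝ) : Continuous (FK I A L) := by
  unfold FK
  exact ((hc.comp (continuous_const.mul Real.continuous_exp)).norm).mul (bump_cont A)

lemma FK_nonneg (A L v : ℝ) : 0 ≤ FK I A L v := mul_nonneg (norm_nonneg _) (bump_nonneg _ _)

lemma FK_supp (A L : ℝ) : HasCompactSupport (FK I A L) := by
  refine HasCompactSupport.intro (isCompact_Icc (a := A - 1) (b := 1)) fun v hv => ?_
  unfold FK
  rw [bump_zero hv, mul_zero]

lemma FK_int (hc : Continuous (ft I)) (A L : ℝ) (hA : A ≤ 0) :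
    ∫ v, FK I A L v ≤ ∫ v in (A - 1)..1, ‖ft I (L * Real.exp v)‖ := by
  have h1 : ∫ v, FK I A L v = ∫ v in (A - 1)..1, FK I A L v := by
    rw [intervalIntegral.integral_of_le (by linarith), ← MeasureTheory.integral_Icc_eq_integral_Ioc]
    symm
    apply setIntegral_eq_integral_of_forall_compl_eq_zero
    intro v hv
    unfold FK
    rw [bump_zero hv, mul_zero]
  rw [h1]
  apply intervalIntegral.integral_mono_on (by linarith)
  · exact (FK_cont I hc A L).intervalIntegrable _ _
  · exact ((hc.comp (continuous_const.mul Real.continuous_exp)).norm).intervalIntegrable _ _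
  · intro v _
    unfold FK
    exact mul_le_of_le_one_right (norm_nonneg _) (bump_le _ _)

lemma ft_le (ξ : ℝ) : ‖ft I ξ‖ ≤ 1 := by
  unfold ft
  refine (norm_integral_le_integral_norm _).trans ?_
  simp only [norm_e]
  simp

lemma exists_c : ∃ c : ℝ, 0 < c ∧ c ≤ 1 ∧ ∀ i, c ≤ |I.r i| := by
  have hk : (univ : Finset (Fin k)).Nonempty := by
    rw [Finset.univ_nonempty_iff]
    by_contra h
    rw [not_nonempty_iff] at h
    have := I.p_sum
    rw [Finset.univ_eq_empty, Finset.sum_empty] at this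
    norm_num at this
  obtain ⟨i, -, hi⟩ := exists_min_image univ (fun i => |I.r i|) hk
  exact ⟨|I.r i|, abs_pos.2 (I.r_ne i), (I.r_lt i).le, fun j => hi j (mem_univ j)⟩

end Pool.Agent.T3H29.SS
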