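import Pool.Agent.T3H29.HR.Stm

/-!
# Self-similar measures and real bases: definitions, statements of the parts, proofs in the docstrings

Theorem (MP_9056e9_nt, slot 4). Let `μ` be the self-similar measure of the maps `x ↦ r_i x + τ_i`, `0 < |r_i| < 1`
(overlaps allowed), with weights `p_i > 0`; not all the fixed points are equal. Let `β > 1` be a real number such that
`log |r_i| / log β` is irrational for some `i`, and `a_n ∼ t β^n`, `t ≠ 0`. Then for `μ`-almost all `x` and all real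
polynomials `Q` the sequence `a_n x + c_n + Q(n)` is equidistributed modulo one.

Plan. `X(ω) = ∑ R_n(ω) τ(ω_n)`, `R_n = r(ω_0) ⋯ r(ω_(n-1))`, has the law `μ` (LAW). With the stopping index
`m = st T ω` (first `m` with `|R_m| T ≤ 1`), `T = |t| β^(n-K)`, the differences of `e(a_n X)` and its conditional
expectation given `ω_0, …, ω_(m-1)` are nearly orthogonal (COR), and the conditional expectation is at most
`|ft (a_n R_m)|`. The numbers `log |R_m|` are equidistributed modulo `log β` (WEY), so that the mean of these absolute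
values is at most a constant times `∫ |ft (β^K e^v)| dv`, which tends to `0` for `K → ∞` (WIE).

All parts are independent of each other; each theorem is to be proved in its own file `Pool/Agent/T3H29/SS/T_XXX.lean`
(`theorem t_XXX : S_XXX`), which imports this file (and whatever it needs from the library).
-/

set_option autoImplicit false

namespace Pool.Agent.T3H29.SS

open MeasureTheory ProbabilityTheory Filter Topology Finset
open Pool.Agent.T3H29.HR (e)

/-- contracting similarities of the line with positive weights -/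
structure Ifs (k : ℕ) where
  r : Fin k → ℝ
  τ : Fin k → ℝ
  p : Fin k → ℝ
  r_ne : ∀ i, r i ≠ 0
  r_lt : ∀ i, |r i| < 1
  p_pos : ∀ i, 0 < p i
  p_sum : ∑ i, p i = 1

variable {k : ℕ} (I : Ifs k)

/-- the weights as a measure on the indices -/
noncomputable def wt : Measure (Fin k) := ∑ i, ENNReal.ofReal (I.p i) • Measure.dirac i

instance wt_prob : IsProbabilityMeasure (wt I) := by
  constructor
  unfold wt
  simp only [Measure.coe_finset_sum, Measure.coe_smul, Finset.sum_apply, Pi.smul_apply, measure_univ, smul_eq_mul,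
    mul_one]
  rw [← ENNReal.ofReal_sum_of_nonneg fun i _ => (I.p_pos i).le, I.p_sum, ENNReal.ofReal_one]

/-- the product measure on the sequences of indices -/
noncomputable def PP : Measure (ℕ → Fin k) := Measure.infinitePi (fun _ : ℕ => wt I)

instance PP_prob : IsProbabilityMeasure (PP I) := by unfold PP; infer_instance

/-- `R_n = r(ω_0) ⋯ r(ω_(n-1))` -/
noncomputable def R (ω : ℕ → Fin k) (n : ℕ) : ℝ := ∏ i ∈ range n, I.r (ω i)

/-- the partial sums of the random series -/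
noncomputable def S (ω : ℕ → Fin k) (n : ℕ) : ℝ := ∑ i ∈ range n, R I ω i * I.τ (ω i)

/-- the random series -/
noncomputable def X (ω : ℕ → Fin k) : ℝ := ∑' i : ℕ, R I ω i * I.τ (ω i)

/-- the first `n` terms of `ω`, followed by `η` -/
def spl (n : ℕ) (ω η : ℕ → Fin k) : ℕ → Fin k := fun i => if i < n then ω i else η (i - n)

/-- the stopping index -/
noncomputable def st (T : ℝ) (ω : ℕ → Fin k) : ℕ := sInf {m : ℕ | |R I ω m| * T ≤ 1}

/-- the Fourier transform of the law of `X` -/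
noncomputable def ft (ξ : ℝ) : ℂ := ∫ ω, e (ξ * X I ω) ∂(PP I)

/-- the conditional expectation of `e(a X)` given the first `st T ω` terms -/
noncomputable def G (a T : ℝ) (ω : ℕ → Fin k) : ℂ := ∫ η, e (a * X I (spl (st I T ω) ω η)) ∂(PP I)

/-- self-similar measure -/
def Stationary (μ : Measure ℝ) : Prop :=
  μ = ∑ i, ENNReal.ofReal (I.p i) • μ.map (fun x => I.r i * x + I.τ i)

/-- **SPL** (60 lines). `spl n ω η` has the law `PP` if `ω, η` are independent with the law `PP`. Proof: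
`Measure.eq_infinitePi` : check the measure of `Set.pi s t`, `s` a finite set; its preimage is the product set
`{ω | ∀ i ∈ s, i < n → ω i ∈ t i} ×ˢ {η | ∀ j, j + n ∈ s → η j ∈ t (j + n)}`; use `Measure.prod_prod` and
`infinitePi_pi` twice and `Finset.prod` over `s` split at `n`. -/
def S_SPL : Prop := ∀ (k : ℕ) (I : Ifs k) (n : ℕ),
  ((PP I).prod (PP I)).map (fun z => spl n z.1 z.2) = PP I

/-- **SMK** (90 lines, uses SPL as a hypothesis). Strong Markov property. Proof: `∫ F = ∑_n ∫ 1_{m = n} F`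
(`integral` over the countable partition, or dominated convergence of the sums over `n < N`), and by SPL
`∫ 1_{m = n} F = ∫∫ 1_{m (spl n ω η) = n} F (spl n ω η)`. Here `m (spl n ω η) = n` if and only if `m ω = n`: both
sequences have the same first `n` terms (apply the hypothesis on `m` to `ω`, and to `spl n ω η`). Sum over `n`. -/
def S_SMK : Prop := S_SPL → ∀ (k : ℕ) (I : Ifs k) (m : (ℕ → Fin k) → ℕ), Measurable m →
  (∀ ω ω', (∀ i < m ω, ω i = ω' i) → m ω' = m ω) →
  ∀ (F : (ℕ → Fin k) → ℂ) (C : ℝ), Measurable F → (∀ ω, ‖F ω‖ ≤ C) →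
  ∫ ω, F ω ∂(PP I) = ∫ ω, (∫ η, F (spl (m ω) ω η) ∂(PP I)) ∂(PP I)

/-- **XB** (100 lines). With `q = max |r_i| < 1` one has `|R_n| ≤ q^n`, so the series converges absolutely and
uniformly (`continuous_tsum`), `|X| ≤ max |τ| / (1 - q)`; the third part is the splitting of the series after `n`
terms (`sum_add_tsum_nat_add`), since `R (spl n ω η) (n + j) = R ω n * R η j`. -/
def S_XB : Prop := ∀ (k : ℕ) (I : Ifs k),
  (∃ C : ℝ, 0 ≤ C ∧ ∀ ω, |X I ω| ≤ C) ∧ Continuous (X I) ∧
  (∀ (n : ℕ) (ω η : ℕ → Fin k), X I (spl n ω η) = S I ω n + R I ω n * X I η) ∧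
  (∀ (n : ℕ) (ω : ℕ → Fin k), X I ω = S I ω n + R I ω n * X I (fun i => ω (i + n)))

/-- **STP** (120 lines). The stopping index. `|R_m| ≤ q^m`, `q = max |r_i| < 1`, so the set in the definition of `st`
is not empty; (1) `Nat.sInf_mem`; (2) for `T > 1` the index is `m + 1` for some `m` with `|R_m| T > 1`, and
`|R_(m+1)| = |R_m| |r|`; (3) measurability: `{ω | st T ω = n}` depends on finitely many coordinates (e.g. `R` is
measurable in `ω`, and `{st T ω ≤ n} = ⋃_{m ≤ n} {|R_m| T ≤ 1}` — for `n = 0` the same); (4) `R ω m = R ω' m` for `m` at most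
the common length; (5) `|R_m| T ≤ |R_m| T' ≤ 1`; (6) `q^m T ≤ 1` for `m ≥ log T / log (1/q)`. -/
def S_STP : Prop := ∀ (k : ℕ) (I : Ifs k),
  (∀ T : ℝ, 0 < T → ∀ ω, |R I ω (st I T ω)| * T ≤ 1) ∧
  (∀ c : ℝ, (∀ i, c ≤ |I.r i|) → 0 < c → ∀ T : ℝ, 1 < T → ∀ ω, c < |R I ω (st I T ω)| * T) ∧
  (∀ T : ℝ, 0 < T → Measurable (st I T)) ∧
  (∀ T : ℝ, 0 < T → ∀ ω ω' : ℕ → Fin k, (∀ i < st I T ω, ω i = ω' i) → st I T ω' = st I T ω) ∧
  (∀ T T' : ℝ, 0 < T → T ≤ T' → ∀ ω, st I T ω ≤ st I T' ω) ∧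
  (∃ A : ℝ, 0 < A ∧ ∀ T : ℝ, 1 ≤ T → ∀ ω, (st I T ω : ℝ) ≤ A * Real.log T + A)

/-- **GME** (80 lines). `G` is measurable, depends only on the first `st T ω` terms, and has the absolute value
`‖ft (a R)‖`. Proof: by XB, `X (spl m ω η) = S ω m + R ω m X η`, so `G = e(a S ω m) ft(a R ω m)` with `m = st T ω`; the
functions `ω ↦ S ω n, R ω n` are measurable (finite sums of functions of finitely many coordinates), `ft` is continuous
(dominated convergence), and `ω ↦ st T ω` is measurable with values in `ℕ` (`measurable_from_prod_countable` or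
`Measurable.comp` after uncurrying: a function `n ↦ f n ω` evaluated at a measurable index is measurable). -/
def S_GME : Prop := S_XB → S_STP → ∀ (k : ℕ) (I : Ifs k) (a T : ℝ), 0 < T →
  Measurable (G I a T) ∧ (∀ ω, ‖G I a T ω‖ = ‖ft I (a * R I ω (st I T ω))‖) ∧ (∀ ω, ‖G I a T ω‖ ≤ 1) ∧
  (∀ ω ω' : ℕ → Fin k, (∀ i < st I T ω, ω i = ω' i) → G I a T ω' = G I a T ω) ∧ Continuous (ft I) ∧
  (∃ C : ℝ, 0 ≤ C ∧ ∀ ξ ξ' : ℝ, ‖ft I ξ - ft I ξ'‖ ≤ C * |ξ - ξ'|)

/-- **COR** (170 lines). Near orthogonality. Let `T_n = |t| β^(n-K)`, `D_n = z_n (e(a_n X) - G a_n T_n)`, `m < n`, and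
`M(ω) = st T_n ω`. By SMK (with the stopping index `M`) `∫ D_m conj D_n = ∫∫ D_m(ω^) conj D_n(ω^)`,
`ω^ = spl (M ω) ω η`. Fix a constant sequence `η₀` and put `c(ω) = D_m (spl (M ω) ω η₀)`. Since `G a_n T_n (ω^)` does not
depend on `η` (it depends on the first `st T_n ω^ = M ω` terms only) and is the `η`-mean of `e(a_n X(ω^))`, one has
`∫_η D_n(ω^) = 0`, so `∫∫ c(ω) conj D_n(ω^) = 0`. And `G a_m T_m` is equal at `ω^` and `spl (M ω) ω η₀`, because
`st T_m ≤ st T_n` (STP 5), so `|D_m(ω^) - c(ω)| ≤ |e(a_m X(ω^)) - e(a_m X(spl (M ω) ω η₀))| ≤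
2π |a_m| |R_M| |X η - X η₀| ≤ C |a_m| / T_n ≤ C' β^K β^(-(n-m))` by XB, STP 1 and `|a_m| ≤ C'' β^m`. -/
def S_COR : Prop := S_SMK → S_SPL → S_XB → S_STP → S_GME → ∀ (k : ℕ) (I : Ifs k) (β t : ℝ) (a : ℕ → ℝ) (z : ℕ → ℂ)
  (K : ℕ), 1 < β → t ≠ 0 → Tendsto (fun n => a n / β ^ n) atTop (𝓝 t) → (∀ n, ‖z n‖ ≤ 1) →
  ∃ A ρ : ℝ, 0 ≤ A ∧ 0 ≤ ρ ∧ ρ < 1 ∧ ∀ m n : ℕ, m < n →
    ‖∫ ω, (z m * (e (a m * X I ω) - G I (a m) (|t| * β ^ m / β ^ K) ω)) *
      (starRingEnd ℂ) (z n * (e (a n * X I ω) - G I (a n) (|t| * β ^ n / β ^ K) ω)) ∂(PP I)‖ ≤ A * ρ ^ (n - m)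

/-- **WEY** (130 lines). The random walk `log |R_m|` modulo `θ`. For `l ≠ 0` put `u_m = e(l log |R_m| / θ)`,
`y_i = e(l log |r_i| / θ)`, `w = ∑ p_i y_i`. Then `u_(m+1) = u_m y(ω_m)`, `|w| ≤ 1` and `w ≠ 1`, since `y_i ≠ 1` for the
index `i` with `log |r_i| / θ` irrational and `p_i > 0` (`Re w < 1`). The functions `D_m = u_(m+1) - w u_m` are bounded by
`2` and orthogonal (`u_m`, `u_(m+1)`, … : condition on the first `n` coordinates; `∫ D_m conj D_n = 0` for `m < n` since
`D_n = u_n (y(ω_n) - w)`, `D_m conj u_n` depends on `ω_0, …, ω_(n-1)` and `∫ (y(ω_n) - w) = 0`), so by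
`HR.second_moment` and `HR.as_of_second` (file `Pool/Agent/T3H29/HR/LL1.lean`) `∑_{m < M} D_m = o(M)` almost surely. But
`∑_{m < M} D_m = (1 - w) ∑_{m < M} u_m + u_M - u_0`. Countably many `l`. -/
def S_WEY : Prop := ∀ (k : ℕ) (I : Ifs k) (θ : ℝ), 0 < θ → (∃ i, Irrational (Real.log |I.r i| / θ)) →
  ∀ᵐ ω ∂(PP I), ∀ l : ℤ, l ≠ 0 →
    Tendsto (fun M : ℕ => ‖∑ m ∈ range M, e (l * Real.log |R I ω m| / θ)‖ / M) atTop (𝓝 0)

/-- **EQD** (170 lines). From the Weyl sums to continuous functions. `Γ(x) = ∑_{n ∈ ℤ} F(nθ + c + x)` is continuous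
(locally a finite sum) and has period `θ`, so it is, as a function on `AddCircle θ`, a uniform limit of trigonometric
polynomials (`span_fourier_closure_eq_top` or `ContinuousMap` version); by the hypothesis `(1/M) ∑_{m<M} Γ(u_m)`
converges to the mean value `(1/θ) ∫_0^θ Γ = (1/θ) ∫ F`. The library file `Pool/Agent/TH915/PW/Disc.lean` or Fejér
kernels may be used instead. -/
def S_EQD : Prop := ∀ (θ : ℝ) (u : ℕ → ℝ), 0 < θ →
  (∀ l : ℤ, l ≠ 0 → Tendsto (fun M : ℕ => ‖∑ m ∈ range M, e (l * u m / θ)‖ / M) atTop (𝓝 0)) →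
  ∀ F : ℝ → ℝ, Continuous F → HasCompactSupport F → (∀ x, 0 ≤ F x) → ∀ c ε : ℝ, 0 < ε →
    ∀ᶠ M : ℕ in atTop, ∑ m ∈ range M, (∑' n : ℤ, F (n * θ + c + u m)) ≤ M * ((∫ x, F x) / θ + ε)

/-- **CNT** (50 lines). For any function `m n` with values `< M`: every `n` contributes one term of the double sum
on the right, and all terms are nonnegative; the inner sums have finitely many nonzero terms. -/
def S_CNT : Prop := ∀ (θ c : ℝ) (u : ℕ → ℝ) (m : ℕ → ℕ) (F : ℝ → ℝ) (N M : ℕ), 0 < θ → HasCompactSupport F →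
  (∀ x, 0 ≤ F x) → (∀ n < N, m n < M) →
  ∑ n ∈ range N, F (n * θ + c + u (m n)) ≤ ∑ j ∈ range M, (∑' n : ℤ, F (n * θ + c + u j))

/-- **WIE** (150 lines). Wiener's theorem. `∫_A^B ‖ft(L e^v)‖ dv ≤ √(B-A) (∫_A^B ‖ft(L e^v)‖² dv)^(1/2)` and
`‖ft(ξ)‖² = ∫∫ e(ξ (X ω - X ω'))`, so that `∫_A^B ‖ft(L e^v)‖² dv = ∫∫ h_L(X ω - X ω')`,
`h_L(x) = ∫_A^B e(L e^v x) dv`, `|h_L| ≤ B - A`, and `h_L(x) → 0` for `L → ∞` if `x ≠ 0` (substitute `s = e^v`:
`∫ e(L x s) ds / s`, one integration by parts, or the Riemann–Lebesgue lemma of Mathlib). The set `X ω = X ω'` has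
measure `0` because the law of `X` has no atoms (Fubini). Dominated convergence along sequences `L → ∞`. Compare
`Pool/Agent/T3H29/HR/T_WIE.lean` (`osc`, `tendsto_hh`, `t_WIE`), which is almost the same. -/
def S_WIE : Prop := S_XB → ∀ (k : ℕ) (I : Ifs k), (∀ x : ℝ, (PP I).map (X I) {x} = 0) → ∀ A B : ℝ, A < B →
  Tendsto (fun L : ℝ => ∫ v in A..B, ‖ft I (L * Real.exp v)‖) atTop (𝓝 0)

/-- **LAW** (130 lines). A self-similar measure is the law of `X`. For bounded continuous `F` one has by induction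
`∫ F dμ = ∫ (∫ F(S ω n + R ω n x) dμ(x)) dPP(ω)` for all `n` (the step: stationarity of `μ` inside, and
`S ω (n+1) + R ω (n+1) x = S ω n + R ω n (r(ω_n) x + τ(ω_n))`; `ω_n` is independent of `ω_0, …, ω_(n-1)` under the
product measure), and `S ω n + R ω n x → X ω` for `n → ∞`. Dominated convergence, then
`ext_of_forall_integral_eq_of_IsFiniteMeasure`. -/
def S_LAW : Prop := S_XB → S_SPL → ∀ (k : ℕ) (I : Ifs k) (μ : Measure ℝ), IsProbabilityMeasure μ → Stationary I μ →
  (PP I).map (X I) = μ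

/-- **NAT** (110 lines). No atoms. Suppose that `μ` has an atom; let `a > 0` be the maximal mass of a point (it is
attained: only finitely many points have mass at least a given positive number) and `A` the finite nonempty set of the
points of mass `a`. For `x ∈ A`: `a = μ{x} = ∑ p_i μ{f_i⁻¹ x} ≤ a`, so `f_i⁻¹ x = (x - τ_i)/r_i ∈ A` for all `i`. So
`f_i⁻¹` maps `A` injectively into `A`, hence bijectively; `f_i` maps `A` onto `A` and contracts distances, so the
diameter of `A` is `0`: `A = {x₀}` and `f_i x₀ = x₀` for all `i`, that is `x₀ = τ_i / (1 - r_i)` for all `i`. -/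
def S_NAT : Prop := ∀ (k : ℕ) (I : Ifs k) (μ : Measure ℝ), IsProbabilityMeasure μ → Stationary I μ →
  (∃ i j, I.τ i / (1 - I.r i) ≠ I.τ j / (1 - I.r j)) → ∀ x : ℝ, μ {x} = 0

/-- **IRR** (60 lines). If `α > 0`, `α ≠ 1`, is algebraic, and `q > 0` rational, then `log α / q` and
`log α / (q log π)` are irrational: otherwise `e` or `π` would be algebraic. (Transcendence of `e` and `π` from the
library: see `Pool/Agent/T3H29/HR/T_IND.lean`.) -/
def S_IRR : Prop := ∀ (α : ℝ) (q : ℚ), 0 < α → α ≠ 1 → IsAlgebraic ℚ α → 0 < q →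
  Irrational (Real.log α / Real.log (Real.exp q)) ∧ Irrational (Real.log α / Real.log (Real.pi ^ (q : ℝ)))

end Pool.Agent.T3H29.SS
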